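import Mathlib

/-!
# Exponential growth
-/

set_option autoImplicit false

namespace Pool.Agent.V5helper84.SL

/-- A sequence bounded by `s ^ ((n + 1) / (m + 1))`, `s < b ^ (m + 1)`, up to a constant, does not
grow faster than all `θ ^ (n + 1)`, `θ < b`. -/
lemma gap_contra {b m s : ℕ} (hs : s + 2 ≤ b ^ (m + 1)) (A : ℕ → ℕ → ℝ) (C : ℕ → ℕ → Prop)
    (hA : ∀ n c, C n c →
      A n c ≤ ((s ^ ((n + 1) / (m + 1)) * b ^ ((n + 1) % (m + 1)) : ℕ) : ℝ))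
    (h : ∀ θ : ℝ, 0 ≤ θ → θ < b → ∀ M : ℕ, ∃ n ≥ M, ∃ c, C n c ∧ θ ^ (n + 1) ≤ A n c) :
    False := by
  have hb1 : 1 ≤ b := by
    rcases Nat.eq_zero_or_pos b with h0 | h0
    · rw [h0, zero_pow (Nat.succ_ne_zero m)] at hs
      omega
    · exact h0
  set B : ℝ := (b : ℝ) ^ (m + 1) with hB
  have hsB : (s : ℝ) + 2 ≤ B := by rw [hB]; exact_mod_cast hs
  have hs0 : (0 : ℝ) ≤ s := Nat.cast_nonneg s
  set θ : ℝ := ((s : ℝ) + 1) ^ (((m + 1 : ℕ) : ℝ)⁻¹) with hθ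
  have hθp : θ ^ (m + 1) = (s : ℝ) + 1 := by
    rw [hθ]
    exact Real.rpow_inv_natCast_pow (by linarith) (Nat.succ_ne_zero m)
  have hθ0 : 0 ≤ θ := Real.rpow_nonneg (by linarith) _
  have hθ1 : 1 ≤ θ := by
    by_contra hlt
    push Not at hlt
    have h2 := pow_lt_one₀ hθ0 hlt (Nat.succ_ne_zero m)
    rw [hθp] at h2
    linarith
  have hθb : θ < b := by
    apply lt_of_pow_lt_pow_left₀ (m + 1) (Nat.cast_nonneg b)
    rw [hθp, ← hB]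
    linarith
  have hbR : (1 : ℝ) ≤ b := by exact_mod_cast hb1
  -- the bound for the quotient
  have key : ∀ Q : ℕ, ∃ q ≥ Q, ((s : ℝ) + 1) ^ q ≤ (s : ℝ) ^ q * B := by
    intro Q
    obtain ⟨n, hn, c, hc, h1⟩ := h θ hθ0 hθb ((m + 1) * Q)
    refine ⟨(n + 1) / (m + 1), ?_, ?_⟩
    · rw [ge_iff_le, Nat.le_div_iff_mul_le (Nat.succ_pos m), mul_comm]
      exact (show (m + 1) * Q ≤ n from hn).trans (Nat.le_succ n)
    · have h2 := h1.trans (hA n c hc)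
      have h5 : θ ^ (n + 1) = ((s : ℝ) + 1) ^ ((n + 1) / (m + 1)) * θ ^ ((n + 1) % (m + 1)) := by
        rw [← hθp, ← pow_mul, ← pow_add, Nat.div_add_mod]
      rw [h5] at h2
      push_cast at h2
      have h3 : (1 : ℝ) ≤ θ ^ ((n + 1) % (m + 1)) := one_le_pow₀ hθ1
      have h4 : (b : ℝ) ^ ((n + 1) % (m + 1)) ≤ B :=
        pow_le_pow_right₀ hbR (Nat.mod_lt _ (Nat.succ_pos m)).le
      calc ((s : ℝ) + 1) ^ ((n + 1) / (m + 1)) =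
            ((s : ℝ) + 1) ^ ((n + 1) / (m + 1)) * 1 := (mul_one _).symm
        _ ≤ ((s : ℝ) + 1) ^ ((n + 1) / (m + 1)) * θ ^ ((n + 1) % (m + 1)) :=
            mul_le_mul_of_nonneg_left h3 (by positivity)
        _ ≤ (s : ℝ) ^ ((n + 1) / (m + 1)) * (b : ℝ) ^ ((n + 1) % (m + 1)) := h2
        _ ≤ _ := mul_le_mul_of_nonneg_left h4 (by positivity)
  rcases hs0.eq_or_lt with hz | hpos
  · obtain ⟨q, hq, h1⟩ := key 1
    rw [← hz, zero_add, one_pow, zero_pow (by omega), zero_mul] at h1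
    linarith
  · have hr : (1 : ℝ) < ((s : ℝ) + 1) / s := (one_lt_div hpos).2 (by linarith)
    obtain ⟨Q, hQ⟩ := pow_unbounded_of_one_lt B hr
    obtain ⟨q, hq, h1⟩ := key Q
    have h2 : (((s : ℝ) + 1) / s) ^ Q ≤ (((s : ℝ) + 1) / s) ^ q := pow_le_pow_right₀ hr.le hq
    rw [div_pow _ _ q, le_div_iff₀ (pow_pos hpos q)] at h2
    have h3 := mul_lt_mul_of_pos_right hQ (pow_pos hpos q)
    linarith [mul_comm ((s : ℝ) ^ q) B]

/-- Polynomials are smaller than exponentials. -/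
lemma poly_exp (m : ℕ) (c : ℝ) {r : ℝ} (hr : 1 < r) :
    ∃ N : ℕ, ∀ n ≥ N, c * ((n : ℝ) + 1) ^ m ≤ r ^ (n + 1) := by
  have h1 := (tendsto_pow_const_div_const_pow_of_one_lt m hr).const_mul c
  rw [mul_zero] at h1
  have h2 := (h1.eventually_lt_const (zero_lt_one)).exists_forall_of_atTop
  obtain ⟨N, hN⟩ := h2
  refine ⟨N, fun n hn => ?_⟩
  have h3 := hN (n + 1) (by omega)
  have h4 : (0 : ℝ) < r ^ (n + 1) := pow_pos (by linarith) _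
  rw [← mul_div_assoc, div_lt_one h4] at h3
  push_cast at h3
  exact h3.le

/-- The lower bound for the number of squares gives maximal growth. -/
lemma growth_low {b d a : ℕ} {θ : ℝ} (hθ0 : 0 < θ) (hθ : θ < b) :
    ∃ N : ℕ, ∀ n ≥ N, θ ^ (2 * n + 2) * ((2 * ((n + 1) * d) + 1 : ℕ) : ℝ) ^ 2 * ((n : ℝ) + 2) ^ a ≤
      ((b : ℝ) ^ (n + 1)) ^ 2 := by
  have hr : 1 < (b : ℝ) ^ 2 / θ ^ 2 :=
    (one_lt_div (by positivity)).2 (pow_lt_pow_left₀ hθ hθ0.le two_ne_zero)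
  obtain ⟨N, hN⟩ := poly_exp (a + 2) ((2 * (d : ℝ) + 1) ^ 2 * 2 ^ a) hr
  refine ⟨N, fun n hn => ?_⟩
  have h1 := hN n hn
  rw [div_pow, le_div_iff₀ (by positivity)] at h1
  have hn0 : (0 : ℝ) ≤ n := Nat.cast_nonneg n
  have hd0 : (0 : ℝ) ≤ d := Nat.cast_nonneg d
  have h2 : ((2 * ((n + 1) * d) + 1 : ℕ) : ℝ) ≤ (2 * (d : ℝ) + 1) * ((n : ℝ) + 1) := by
    push_cast
    nlinarith
  have h3 : ((n : ℝ) + 2) ≤ 2 * ((n : ℝ) + 1) := by linarith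
  calc θ ^ (2 * n + 2) * ((2 * ((n + 1) * d) + 1 : ℕ) : ℝ) ^ 2 * ((n : ℝ) + 2) ^ a ≤
        θ ^ (2 * n + 2) * ((2 * (d : ℝ) + 1) * ((n : ℝ) + 1)) ^ 2 *
          (2 * ((n : ℝ) + 1)) ^ a := by
        gcongr
    _ = (2 * (d : ℝ) + 1) ^ 2 * 2 ^ a * ((n : ℝ) + 1) ^ (a + 2) * (θ ^ 2) ^ (n + 1) := by
        rw [mul_pow, mul_pow, ← pow_mul θ, show 2 * (n + 1) = 2 * n + 2 by ring]
        ring
    _ ≤ ((b : ℝ) ^ 2) ^ (n + 1) := h1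
    _ = _ := by rw [← pow_mul, ← pow_mul, mul_comm 2]

/-- A fixed proportion does not change the growth. -/
lemma growth_ratio {b : ℕ} {ε : ℝ} (hε : 0 < ε) (A R : ℕ → ℕ → ℝ) (C : ℕ → ℕ → Prop)
    (hA : ∀ n c, C n c → ε * R n c ≤ A n c)
    (h : ∀ θ : ℝ, 0 ≤ θ → θ < b → ∀ M : ℕ, ∃ n ≥ M, ∃ c, C n c ∧ θ ^ (n + 1) ≤ R n c) :
    ∀ θ : ℝ, 0 ≤ θ → θ < b → ∀ M : ℕ, ∃ n ≥ M, ∃ c, C n c ∧ θ ^ (n + 1) ≤ A n c := by
  intro θ hθ0 hθ M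
  obtain ⟨θ', h1, h2⟩ := exists_between hθ
  have hθ' : 0 < θ' := hθ0.trans_lt h1
  rcases hθ0.eq_or_lt with hz | hpos
  · obtain ⟨n, hn, c, hc, h3⟩ := h θ' hθ'.le h2 M
    refine ⟨n, hn, c, hc, ?_⟩
    rw [← hz, zero_pow (Nat.succ_ne_zero n)]
    have h4 : 0 ≤ ε * R n c := mul_nonneg hε.le ((pow_nonneg hθ'.le _).trans h3)
    exact h4.trans (hA n c hc)
  · have hr : 1 < θ' / θ := (one_lt_div hpos).2 h1
    obtain ⟨N, hN⟩ := poly_exp 0 ε⁻¹ hr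
    obtain ⟨n, hn, c, hc, h3⟩ := h θ' hθ'.le h2 (max M N)
    refine ⟨n, (le_max_left _ _).trans hn, c, hc, ?_⟩
    have h4 := hN n ((le_max_right _ _).trans hn)
    rw [pow_zero, mul_one, div_pow, le_div_iff₀ (pow_pos hpos _)] at h4
    have h5 : θ ^ (n + 1) ≤ ε * θ' ^ (n + 1) := by
      have := mul_le_mul_of_nonneg_left h4 hε.le
      rwa [← mul_assoc, mul_inv_cancel₀ hε.ne', one_mul] at this
    exact (h5.trans (mul_le_mul_of_nonneg_left h3 hε.le)).trans (hA n c hc)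

end Pool.Agent.V5helper84.SL
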