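import Mathlib

/-!
# Log-convex sequences
-/

set_option autoImplicit false

namespace Pool.Agent.V5helper84.SL

section LC

variable {t : ℕ → ℝ} (h0 : ∀ n, 0 < t n) (hc : ∀ n, t (n + 1) * t (n + 1) ≤ t n * t (n + 2))

include h0 hc

lemma lc_step (n k : ℕ) : t (n + 1) / t n * t (n + k) ≤ t (n + k + 1) := by
  induction k with
  | zero => rw [add_zero, div_mul_cancel₀ _ (h0 n).ne']
  | succ k ih =>
    have h1 := hc (n + k)
    have h2 : t (n + 1) / t n * t (n + k + 1) * t (n + k) ≤ t (n + k + 2) * t (n + k) := by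
      calc t (n + 1) / t n * t (n + k + 1) * t (n + k) =
            (t (n + 1) / t n * t (n + k)) * t (n + k + 1) := by ring
        _ ≤ t (n + k + 1) * t (n + k + 1) := mul_le_mul_of_nonneg_right ih (h0 _).le
        _ ≤ t (n + k) * t (n + k + 2) := h1
        _ = _ := mul_comm _ _
    exact le_of_mul_le_mul_right h2 (h0 _)

lemma lc_pow (n k : ℕ) : t n * (t (n + 1) / t n) ^ k ≤ t (n + k) := by
  induction k with
  | zero => rw [pow_zero, mul_one, add_zero]
  | succ k ih =>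
    have h1 := lc_step h0 hc n k
    have h2 : 0 ≤ t (n + 1) / t n := div_nonneg (h0 _).le (h0 _).le
    calc t n * (t (n + 1) / t n) ^ (k + 1) = t (n + 1) / t n * (t n * (t (n + 1) / t n) ^ k) := by
          ring
      _ ≤ t (n + 1) / t n * t (n + k) := mul_le_mul_of_nonneg_left ih h2
      _ ≤ t (n + k + 1) := h1

/-- The ratios of a log-convex sequence are bounded by its rate of growth. -/
theorem lc_bound {s b m : ℕ}
    (hb : ∀ n, t n ≤ ((s ^ ((2 * n + 2) / (m + 1)) * b ^ ((2 * n + 2) % (m + 1)) : ℕ) : ℝ))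
    (n : ℕ) : t (n + 1) ^ (m + 1) ≤ (s : ℝ) ^ 2 * t n ^ (m + 1) := by
  by_contra hcon
  push Not at hcon
  set r := t (n + 1) / t n with hr
  have hr0 : 0 < r := div_pos (h0 _) (h0 _)
  have hrm : (s : ℝ) ^ 2 < r ^ (m + 1) := by
    rw [hr, div_pow, lt_div_iff₀ (pow_pos (h0 n) _)]
    exact hcon
  set C : ℝ := ((s ^ ((2 * n + 2) / (m + 1)) * b ^ ((2 * n + 2) % (m + 1)) : ℕ) : ℝ) with hC
  have key : ∀ k : ℕ, t n * (r ^ (m + 1)) ^ k ≤ ((s : ℝ) ^ 2) ^ k * C := by
    intro k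
    have h1 := lc_pow h0 hc n ((m + 1) * k)
    rw [pow_mul] at h1
    refine (h1.trans (hb _)).trans (le_of_eq ?_)
    have e : 2 * (n + (m + 1) * k) + 2 = 2 * n + 2 + (m + 1) * (2 * k) := by ring
    rw [e, Nat.add_mul_div_left _ _ (Nat.succ_pos m), Nat.add_mul_mod_self_left, hC, pow_add]
    push_cast
    rw [pow_mul]
    ring
  rcases Nat.eq_zero_or_pos s with hs | hs
  · have h1 := key 1
    rw [hs] at h1
    simp only [Nat.cast_zero, ne_eq, OfNat.ofNat_ne_zero, not_false_eq_true, zero_pow, pow_one,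
      zero_mul] at h1
    have h2 := mul_pos (h0 n) (pow_pos hr0 (m + 1))
    linarith
  · have hs' : (0 : ℝ) < (s : ℝ) ^ 2 := by positivity
    have hR : 1 < r ^ (m + 1) / (s : ℝ) ^ 2 := (one_lt_div hs').2 hrm
    obtain ⟨k, hk⟩ := pow_unbounded_of_one_lt (C / t n) hR
    have h1 := key k
    rw [div_lt_iff₀ (h0 n), div_pow, div_mul_eq_mul_div, lt_div_iff₀ (pow_pos hs' k)] at hk
    linarith [mul_comm C (((s : ℝ) ^ 2) ^ k), mul_comm (t n) ((r ^ (m + 1)) ^ k)]

end LC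

/-- A sequence whose ratios are bounded by `θ` does not grow faster. -/
lemma ratio_pow {t : ℕ → ℝ} {θ : ℝ} (hθ : 0 ≤ θ) (h : ∀ n, t (n + 1) ≤ θ * t n) (n : ℕ) :
    t n ≤ θ ^ n * t 0 := by
  induction n with
  | zero => rw [pow_zero, one_mul]
  | succ n ih =>
    calc t (n + 1) ≤ θ * t n := h n
      _ ≤ θ * (θ ^ n * t 0) := mul_le_mul_of_nonneg_left ih hθ
      _ = _ := by ring

/-- If the sequence has the growth of `b ^ 2` then some ratio is larger than `θ < b ^ 2`. -/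
lemma exists_ratio {t : ℕ → ℝ} {b : ℕ} (h0 : ∀ n, 0 < t n)
    (hg : ∀ x : ℝ, 0 < x → x < b → ∃ N : ℕ, ∀ n ≥ N, x ^ (2 * n + 2) ≤ t n) {θ : ℝ} (hθ : 0 ≤ θ)
    (hθb : θ < (b : ℝ) ^ 2) : ∃ n, θ * t n < t (n + 1) := by
  by_contra hcon
  push Not at hcon
  rcases hθ.eq_or_lt with hz | hpos
  · have h1 := hcon 0
    rw [← hz, zero_mul] at h1
    linarith [h0 (0 + 1)]
  -- choose `x` with `θ < x ^ 2`, `x < b`
  have hsb : Real.sqrt θ < b := by
    rw [Real.sqrt_lt' (by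
      rcases Nat.eq_zero_or_pos b with h | h
      · rw [h] at hθb
        simp only [Nat.cast_zero, ne_eq, OfNat.ofNat_ne_zero, not_false_eq_true, zero_pow] at hθb
        linarith
      · exact_mod_cast h)]
    exact hθb
  obtain ⟨x, hx1, hx2⟩ := exists_between hsb
  have hx0 : 0 < x := (Real.sqrt_nonneg θ).trans_lt hx1
  have hxθ : θ < x ^ 2 := (Real.sqrt_lt' hx0).1 hx1
  obtain ⟨N, hN⟩ := hg x hx0 hx2
  have hR : 1 < x ^ 2 / θ := (one_lt_div hpos).2 hxθ
  obtain ⟨k, hk⟩ := pow_unbounded_of_one_lt (t 0 / x ^ 2) hR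
  set n := max N k with hn
  have h1 := hN n (le_max_left _ _)
  have h2 := ratio_pow hθ hcon n
  have h3 : t 0 / x ^ 2 < (x ^ 2 / θ) ^ n :=
    hk.trans_le (pow_le_pow_right₀ hR.le (le_max_right _ _))
  rw [div_lt_iff₀ (by positivity), div_pow, div_mul_eq_mul_div, lt_div_iff₀ (pow_pos hpos n)] at h3
  have h4 : x ^ (2 * n + 2) = (x ^ 2) ^ n * x ^ 2 := by ring
  rw [h4] at h1
  linarith [mul_comm (t 0) (θ ^ n)]

end Pool.Agent.V5helper84.SL
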