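import Pool.Agent.V5helper84.SL.Fin
import Pool.Agent.W539.Ker.Final

/-!
# The signatures in the middle codimensions of the even powers form a log-convex sequence
-/

open CategoryTheory AlgebraicGeometry

set_option autoImplicit false

universe u v

namespace Pool.Agent.V5helper84.SL

open Pool.Agent.H914 Pool.Agent.H914.VarClass Pool.Agent.H914.VarClass.Obj
  Pool.Agent.H914.WeilCohomology Pool.Agent.H281R3.HT Pool.Agent.W552 Pool.Agent.W539.Ker
  Pool.Agent.W534

variable {k : Type u} [Field k] {𝒱 : VarClass k} {ops : CycleOps 𝒱}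
  {W : WeilCohomology.{u, v} ops} {P Q : Polarized 𝒱}

/-- The signature in weight `m`. -/
noncomputable def sw (W : WeilCohomology.{u, v} ops) (P : Polarized 𝒱) (m : ℤ) : ℤ :=
  wsum P.X.dim (sig W P.X P.D) m

lemma sw_up (W : WeilCohomology.{u, v} ops) (P : Polarized 𝒱) {c : ℕ} (hc : 2 * c ≤ P.X.dim) :
    sw W P (2 * (c : ℤ) - P.X.dim) = sgUp W P c := by
  rw [sw, wsum_up _ _ hc, sgUp_eq]

lemma sw_neg (W : WeilCohomology.{u, v} ops) (P : Polarized 𝒱) (m : ℤ) :
    sw W P (-m) = sw W P m := wsum_neg _ _ _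

lemma sw_mid (W : WeilCohomology.{u, v} ops) (P : Polarized 𝒱) {c : ℕ} (hc : P.X.dim = 2 * c) :
    sw W P 0 = sgUp W P c := by
  rw [← sw_up W P hc.ge]
  congr 1
  omega

/-- The main inequality of `W539.Ker`. -/
lemma ineq {I : Type} [Fintype I] (Q : I → Polarized 𝒱) (hD : ∀ i, (Q i).X.IsCyc 1 (Q i).D)
    (hHL : ∀ i, HardLefschetz W (Q i).X (Q i).D) (hB : ∀ i, LefschetzB W (Q i).X (Q i).D)
    (dg ε : I → ℤ) (hε : ∀ a, ε a * ε a = 1) :
    0 ≤ ∑ a, ∑ c, ε a * ε c * sw W ((Q a).prod ops (Q c)) (dg c - dg a) := by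
  classical
  choose f G using fun i => exists_gd (hD i) (hHL i) (hB i)
  exact main_ineq G dg ε hε

/-- The signature in the middle of a square dominates. -/
lemma sw_sq_le (hD : P.X.IsCyc 1 P.D) (hHL : HardLefschetz W P.X P.D)
    (hB : LefschetzB W P.X P.D) (m : ℤ) :
    |sw W (P.prod ops P) m| ≤ sw W (P.prod ops P) 0 := by
  have key : ∀ e : ℤ, e * e = 1 → 0 ≤ 2 * (sw W (P.prod ops P) 0 + e * sw W (P.prod ops P) m) := by
    intro e he
    have h1 := ineq (I := Fin 2) (fun _ => P) (fun _ => hD) (fun _ => hHL) (fun _ => hB) ![0, m]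
      ![1, e] (by
        intro a
        fin_cases a
        · simp
        · simpa using he)
    simp only [Fin.sum_univ_two, Matrix.cons_val_zero, Matrix.cons_val_one, sub_self,
      sub_zero, zero_sub, sw_neg, one_mul, mul_one, he] at h1
    linarith
  have h1 := key 1 (by norm_num)
  have h2 := key (-1) (by norm_num)
  rw [abs_le]
  constructor <;> linarith

/-- The Cauchy-Schwarz inequality. -/
lemma sw_cs (hD : P.X.IsCyc 1 P.D) (hHL : HardLefschetz W P.X P.D)
    (hB : LefschetzB W P.X P.D) (hD' : Q.X.IsCyc 1 Q.D) (hHL' : HardLefschetz W Q.X Q.D)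
    (hB' : LefschetzB W Q.X Q.D) (p q : ℕ) :
    0 ≤ (p : ℤ) * p * sw W (P.prod ops P) 0 -
      (p : ℤ) * q * (sw W (P.prod ops Q) 0 + sw W (Q.prod ops P) 0) +
      (q : ℤ) * q * sw W (Q.prod ops Q) 0 := by
  have h1 := ineq (W := W) (I := Fin p ⊕ Fin q) (Sum.elim (fun _ => P) (fun _ => Q))
    (by rintro (i | i) <;> assumption) (by rintro (i | i) <;> assumption)
    (by rintro (i | i) <;> assumption) (fun _ => 0) (Sum.elim (fun _ => 1) (fun _ => -1))
    (by rintro (i | i) <;> simp)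
  simp only [Fintype.sum_sum_type, Sum.elim_inl, Sum.elim_inr, sub_self, Finset.sum_const,
    Finset.card_univ, Fintype.card_fin, nsmul_eq_mul, mul_one, one_mul, mul_neg, neg_mul,
    neg_neg] at h1
  refine h1.trans (le_of_eq ?_)
  ring

/-- The signature of the form on the classes of middle codimension on the power with
`2 n + 2` factors. -/
noncomputable def sgMid (W : WeilCohomology.{u, v} ops) (P : Polarized 𝒱) (n : ℕ) : ℤ :=
  sgUp W (ppw ops P (2 * n + 1)) ((n + 1) * P.X.dim)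

lemma dim_even (P : Polarized 𝒱) (n : ℕ) :
    (ppw ops P (2 * n + 1)).X.dim = 2 * ((n + 1) * P.X.dim) := by
  rw [dim_ppw]; ring

lemma sw_iso (hISO : S_ISO.{u, v}) (hP : P.X.IsCyc 1 P.D) (hQ : Q.X.IsCyc 1 Q.D)
    (h : PIso W P Q) {c : ℕ} (hc : P.X.dim = 2 * c) : sw W P 0 = sgUp W Q c := by
  rw [sw_mid W P hc]
  exact sgUp_iso hISO hP hQ h hc.ge

section Pow

variable (hISO : S_ISO.{u, v}) (hD : P.X.IsCyc 1 P.D) (hHL : HardLefschetz W P.X P.D)
  (hB : LefschetzB W P.X P.D)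

include hISO hD

lemma sw_mul (i j : ℕ) (n : ℕ) (hn : i + j = 2 * n) :
    sw W ((ppw ops P i).prod ops (ppw ops P j)) 0 = sgMid W P n := by
  have h1 := (hISO k _ 𝒱 ops W).2.2 P hD i j
  have e : i + 1 + j = 2 * n + 1 := by omega
  rw [e] at h1
  exact sw_iso hISO (SmVar.IsCyc.add (ops.pull_mem _ (ppw_cyc hD i))
    (ops.pull_mem _ (ppw_cyc hD j))) (ppw_cyc hD _) h1
    (h1.1.trans (dim_even P n))

include hHL hB

/-- The signature in the middle codimension dominates the others. -/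
theorem sgUp_le_mid (n : ℕ) {c : ℕ} (hc : 2 * c ≤ (ppw ops P (2 * n + 1)).X.dim) :
    |sgUp W (ppw ops P (2 * n + 1)) c| ≤ sgMid W P n := by
  have h1 := (hISO k _ 𝒱 ops W).2.2 P hD n n
  have e : n + 1 + n = 2 * n + 1 := by omega
  rw [e] at h1
  have hc' : 2 * c ≤ ((ppw ops P n).prod ops (ppw ops P n)).X.dim := by rw [h1.1]; exact hc
  have hcyc : ((ppw ops P n).prod ops (ppw ops P n)).X.IsCyc 1
      ((ppw ops P n).prod ops (ppw ops P n)).D :=
    SmVar.IsCyc.add (ops.pull_mem _ (ppw_cyc hD n)) (ops.pull_mem _ (ppw_cyc hD n))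
  have h2 := sw_sq_le (W := W) (ppw_cyc hD n) (ppw_hard hD hHL n) (ppw_B hD hHL hB n)
    (2 * (c : ℤ) - ((ppw ops P n).prod ops (ppw ops P n)).X.dim)
  rw [sw_up W _ hc', sgUp_iso hISO hcyc (ppw_cyc hD _) h1 hc', sw_mul hISO hD n n n (by ring)]
    at h2
  exact h2

theorem sgMid_nonneg (n : ℕ) : 0 ≤ sgMid W P n :=
  (abs_nonneg _).trans (sgUp_le_mid hISO hD hHL hB n (c := 0) (Nat.zero_le _))

/-- **Log-convexity.** -/
theorem sgMid_sq_le {n : ℕ} (h0 : 0 < sgMid W P n) :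
    sgMid W P (n + 1) * sgMid W P (n + 1) ≤ sgMid W P n * sgMid W P (n + 2) := by
  have h1 := sw_cs (W := W) (ppw_cyc hD n) (ppw_hard hD hHL n) (ppw_B hD hHL hB n)
    (ppw_cyc hD (n + 2)) (ppw_hard hD hHL (n + 2)) (ppw_B hD hHL hB (n + 2))
    (sgMid W P (n + 1)).toNat (sgMid W P n).toNat
  rw [Int.toNat_of_nonneg (sgMid_nonneg hISO hD hHL hB _),
    Int.toNat_of_nonneg (sgMid_nonneg hISO hD hHL hB _),
    sw_mul hISO hD n n n (by ring), sw_mul hISO hD n (n + 2) (n + 1) (by ring),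
    sw_mul hISO hD (n + 2) n (n + 1) (by ring),
    sw_mul hISO hD (n + 2) (n + 2) (n + 2) (by ring)] at h1
  have h2 : 0 ≤ sgMid W P n * (sgMid W P n * sgMid W P (n + 2) -
      sgMid W P (n + 1) * sgMid W P (n + 1)) := by linarith
  have h3 := nonneg_of_mul_nonneg_right h2 h0
  linarith

end Pow

/-- The square of the fundamental cycle. -/
lemma pair_fund {X : 𝒱.Obj} {D : X.Cycles} {f : Module.End W.K (W.H X)} (F : Fr W X D f)
    (h1 : One W X D f) : 0 < pairing ops X D 0 X.V.fundCycle X.V.fundCycle := by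
  obtain ⟨q, hq, hqq⟩ := h1
  have hfc : X.IsCyc 0 X.V.fundCycle := X.V.fundCycle_mem
  have hcl : W.cl X X.V.fundCycle = 1 := W.cl_fund X
  have hop : Primitive W X D 0 X.V.fundCycle := by
    refine ⟨hfc, ?_⟩
    have h2 := pow_L_mem (mulLeft_isHom F.hD) (W.cl_mem hfc) (X.dim - 2 * 0 + 1)
    rw [W_hbd _ (by omega)] at h2
    rw [cl_divPow]
    exact (Submodule.mem_bot _).1 h2
  have h00 := bf_same F (Nat.zero_le _) hop hop (j := 0) (Nat.zero_le _)
  rw [pow_zero, Module.End.one_apply, hcl, hqq] at h00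
  have h3 : q = (Nat.factorial 0 : ℚ) * ((X.dim - 2 * 0 - 0).factorial : ℚ)⁻¹ *
      pairing ops X D 0 X.V.fundCycle X.V.fundCycle := by exact_mod_cast h00
  have h4 : (0 : ℚ) < (Nat.factorial 0 : ℚ) * ((X.dim - 2 * 0 - 0).factorial : ℚ)⁻¹ := by
    positivity
  rw [h3] at hq
  exact (mul_pos_iff_of_pos_left h4).1 hq

/-- There are no negative squares in codimension `0`. -/
lemma negSq_zero {X : 𝒱.Obj} {D : X.Cycles} {f : Module.End W.K (W.H X)} (F : Fr W X D f)
    (h1 : One W X D f) : negSq W X D 0 = 0 := by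
  have hpos := pair_fund F h1
  have hD := F.hD
  rw [negSq]
  apply Nat.le_zero.1
  apply csSup_le'
  rintro r ⟨z, h1, h2, h3⟩
  rcases Nat.eq_zero_or_pos r with hr | hr
  · exact hr.le
  exfalso
  set y := z ⟨0, hr⟩ with hy
  have hyc : X.IsCyc 0 y := (h1 ⟨0, hr⟩).1
  have hfc : X.IsCyc 0 X.V.fundCycle := X.V.fundCycle_mem
  have hneg : pairing ops X D 0 y y < 0 := by
    have := h2 ⟨0, hr⟩
    rw [← hy] at this
    linarith
  have hcl := W.cl_mem hyc
  rw [mul_zero, W.gr_zero, Submodule.mem_span_singleton] at hcl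
  obtain ⟨a, ha⟩ := hcl
  set δ := pairing ops X D 0 X.V.fundCycle X.V.fundCycle with hδ
  have e0 := pairing_cast (W := W) hD (n := 0) (Nat.zero_le _) hfc hfc
  rw [← hδ, pow_zero, one_mul, mul_zero, Nat.sub_zero, W.cl_fund, one_mul] at e0
  have e1 := pairing_cast (W := W) hD (n := 0) (Nat.zero_le _) hyc hfc
  have e2 := pairing_cast (W := W) hD (n := 0) (Nat.zero_le _) hyc hyc
  rw [pow_zero, one_mul, mul_zero, Nat.sub_zero, ← ha, W.cl_fund, smul_mul_assoc, one_mul,
    map_smul, ← e0, smul_eq_mul] at e1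
  rw [pow_zero, one_mul, mul_zero, Nat.sub_zero, ← ha, map_smul, smul_mul_assoc, one_mul,
    map_smul, map_smul, ← e0, smul_eq_mul, smul_eq_mul] at e2
  have e3 : ((pairing ops X D 0 y y * δ : ℚ) : W.K) =
      ((pairing ops X D 0 y X.V.fundCycle * pairing ops X D 0 y X.V.fundCycle : ℚ) : W.K) := by
    rw [Rat.cast_mul, Rat.cast_mul, e1, e2]
    ring
  have e4 : pairing ops X D 0 y y * δ =
      pairing ops X D 0 y X.V.fundCycle * pairing ops X D 0 y X.V.fundCycle := by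
    exact_mod_cast e3
  have e5 := mul_self_nonneg (pairing ops X D 0 y X.V.fundCycle)
  have e6 : pairing ops X D 0 y y * δ < 0 := mul_neg_of_neg_of_pos hneg hpos
  linarith

/-- The signature in the middle codimension is positive. -/
theorem sgMid_pos (hISO : S_ISO.{u, v}) (hD : P.X.IsCyc 1 P.D) (hHL : HardLefschetz W P.X P.D)
    (hB : LefschetzB W P.X P.D) {f : Module.End W.K (W.H P.X)} (F : Fm W P f) (n : ℕ) :
    0 < sgMid W P n := by
  have h1 := sgUp_le_mid hISO hD hHL hB n (c := 0) (Nat.zero_le _)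
  have h2 : 1 ≤ sgUp W (ppw ops P (2 * n + 1)) 0 := by
    have h3 := posSq_zero (F.pow (2 * n + 1)).fr (F.pow (2 * n + 1)).one
    have h4 := negSq_zero (F.pow (2 * n + 1)).fr (F.pow (2 * n + 1)).one
    rw [sgUp, posUp, negUp, Finset.sum_range_one, Finset.sum_range_one, h4]
    push_cast
    have : (1 : ℤ) ≤ (posSq W (ppw ops P (2 * n + 1)).X (ppw ops P (2 * n + 1)).D 0 : ℤ) := by
      exact_mod_cast h3
    linarith
  exact lt_of_lt_of_le (by norm_num) (h2.trans ((le_abs_self _).trans h1))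

end Pool.Agent.V5helper84.SL
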