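import Pool.Agent.W539.Ker.Defs
import Pool.Agent.Y163.Defs

/-!
# The numbers of positive and negative squares on the powers of a polarized variety
-/

open CategoryTheory AlgebraicGeometry

set_option autoImplicit false

universe u v

namespace Pool.Agent.V5helper84.SL

open Pool.Agent.H914 Pool.Agent.H914.VarClass Pool.Agent.H914.VarClass.Obj
  Pool.Agent.H914.WeilCohomology Pool.Agent.H281R3.HT Pool.Agent.W539.Ker

variable {k : Type u} [Field k] {𝒱 : VarClass k} {ops : CycleOps 𝒱}

/-- The power `X × (X × ⋯ × X)` with `n + 1` factors, with the sum of the pull-backs of the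
divisor. -/
noncomputable def ppw (ops : CycleOps 𝒱) (P : Polarized 𝒱) : ℕ → Polarized 𝒱
  | 0 => P
  | n + 1 => P.prod ops (ppw ops P n)

/-- The number of positive squares of the pairing `(-1) ^ n deg (z · D ^ (d - 2 n) · w)` on the
primitive cycles of codimension `n` on `X`: the largest number of pairwise orthogonal primitive cycles
with positive squares. -/
noncomputable def posSq (W : WeilCohomology.{u, v} ops) (X : 𝒱.Obj) (D : X.Cycles) (n : ℕ) : ℕ :=
  sSup {r | HasFamily W X D n 1 r}

/-- The number of negative squares of the pairing on the primitive cycles of codimension `n`. -/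
noncomputable def negSq (W : WeilCohomology.{u, v} ops) (X : 𝒱.Obj) (D : X.Cycles) (n : ℕ) : ℕ :=
  sSup {r | HasFamily W X D n (-1) r}

/-- The cycle `z` of codimension `n` is numerically trivial. -/
def NumTrivial (ops : CycleOps 𝒱) (X : 𝒱.Obj) (n : ℕ) (z : X.Cycles) : Prop :=
  ∀ w, X.IsCyc (X.dim - n) w → X.V.degCycle (ops.mul z w) = 0

/-- The standard conjecture of Hodge type for `X` and `D`, modulo numerical equivalence: for all
`n ≤ d / 2`, `d = dim X`, the pairing `(-1) ^ n deg (z · D ^ (d - 2 n) · w)` on the primitive cycles of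
codimension `n` modulo numerical equivalence is positive definite. -/
def HodgeNum (W : WeilCohomology.{u, v} ops) (X : 𝒱.Obj) (D : X.Cycles) : Prop :=
  ∀ n, 2 * n ≤ X.dim → ∀ z, Primitive W X D n z → ¬ NumTrivial ops X n z →
    0 < pairing ops X D n z z

end Pool.Agent.V5helper84.SL
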