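import Pool.Agent.V5helper84.SL.Law
import Pool.Agent.V5helper84.SL.Ana
import Pool.Agent.V5helper86.GB.Main

/-!
# The zero-one law for the signatures
-/

open CategoryTheory AlgebraicGeometry

set_option autoImplicit false

universe u v

namespace Pool.Agent.V5helper84.SL

open Pool.Agent.H914 Pool.Agent.H914.VarClass Pool.Agent.H914.VarClass.Obj
  Pool.Agent.H914.WeilCohomology Pool.Agent.H281R3.HT Pool.Agent.W552 Pool.Agent.W539.Ker
  Pool.Agent.W534

variable {k : Type u} [Field k] {𝒱 : VarClass k} {ops : CycleOps 𝒱}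
  {W : WeilCohomology.{u, v} ops} {P Q : Polarized 𝒱} {X : 𝒱.Obj} {D : X.Cycles}

/-- A primitive cycle whose square does not vanish is not numerically trivial. -/
lemma not_numTrivial (hD : X.IsCyc 1 D) {n : ℕ} (hn : 2 * n ≤ X.dim) {z : X.Cycles}
    (hz : X.IsCyc n z) (h : pairing ops X D n z z ≠ 0) : ¬ NumTrivial ops X n z := by
  intro ht
  apply h
  have h1 := divPow_mem (ops := ops) hD (X.dim - 2 * n) hz
  rw [show n + (X.dim - 2 * n) = X.dim - n by omega] at h1
  rw [pairing, ht _ h1, mul_zero]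

lemma negSq_eq_zero (hD : X.IsCyc 1 D) (h : HodgeNum W X D) {n : ℕ} (hn : 2 * n ≤ X.dim) :
    negSq W X D n = 0 := by
  rw [negSq]
  apply Nat.le_zero.1
  apply csSup_le'
  rintro r ⟨z, h1, h2, h3⟩
  rcases Nat.eq_zero_or_pos r with hr | hr
  · exact hr.le
  · exfalso
    have h4 := h2 ⟨0, hr⟩
    have h5 : pairing ops X D n (z ⟨0, hr⟩) (z ⟨0, hr⟩) < 0 := by linarith
    have h6 := h n hn _ (h1 ⟨0, hr⟩) (not_numTrivial hD hn (h1 ⟨0, hr⟩).1 h5.ne)
    linarith

lemma negUp_eq_zero (hD : X.IsCyc 1 D) (h : HodgeNum W X D) {c : ℕ} (hc : 2 * c ≤ X.dim) :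
    negUp W X D c = 0 := by
  rw [negUp]
  apply Finset.sum_eq_zero
  intro i hi
  rw [Finset.mem_range] at hi
  exact negSq_eq_zero hD h (by omega)

/-- The class `1` gives a positive square. -/
lemma posSq_zero {f : Module.End W.K (W.H X)} (F : Fr W X D f) (h1 : One W X D f) :
    1 ≤ posSq W X D 0 := by
  obtain ⟨q, hq, hqq⟩ := h1
  have hfc : X.IsCyc 0 X.V.fundCycle := X.V.fundCycle_mem
  have hcl : W.cl X X.V.fundCycle = 1 := W.cl_fund X
  have hop : Primitive W X D 0 X.V.fundCycle := by
    refine ⟨hfc, ?_⟩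
    have h2 := pow_L_mem (mulLeft_isHom F.hD) (W.cl_mem hfc) (X.dim - 2 * 0 + 1)
    rw [W_hbd _ (by omega)] at h2
    rw [cl_divPow]
    exact (Submodule.mem_bot _).1 h2
  have h00 := bf_same F (Nat.zero_le _) hop hop (j := 0) (Nat.zero_le _)
  rw [pow_zero, Module.End.one_apply, hcl, hqq] at h00
  have hpo : 0 < pairing ops X D 0 X.V.fundCycle X.V.fundCycle := by
    have h3 : q = (Nat.factorial 0 : ℚ) * ((X.dim - 2 * 0 - 0).factorial : ℚ)⁻¹ *
        pairing ops X D 0 X.V.fundCycle X.V.fundCycle := by exact_mod_cast h00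
    have h4 : (0 : ℚ) < (Nat.factorial 0 : ℚ) * ((X.dim - 2 * 0 - 0).factorial : ℚ)⁻¹ := by
      positivity
    rw [h3] at hq
    exact (mul_pos_iff_of_pos_left h4).1 hq
  refine le_csSup (bddAbove_family W F.hD (Nat.zero_le _)).1
    ⟨fun _ => X.V.fundCycle, fun _ => hop, fun _ => by rw [one_mul]; exact hpo, ?_⟩
  intro i j hij
  exact absurd (Subsingleton.elim i j) hij

lemma one_le_pairsNo {f : Module.End W.K (W.H X)} (F : Fr W X D f) (h1 : One W X D f)
    (hn : ¬ HodgeNum W X D) : 1 ≤ pairsNo W X D := by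
  obtain ⟨n, hn, z, hz, hneg⟩ := exists_neg F hn
  have h2 : 1 ≤ negSq W X D n := by
    refine le_csSup (bddAbove_family W F.hD hn).2
      ⟨fun _ => z, fun _ => hz, fun _ => by linarith, ?_⟩
    intro i j hij
    exact absurd (Subsingleton.elim i j) hij
  have h3 := posSq_zero F h1
  have hmin : min n (X.dim - n) = n := by omega
  have h4 : 1 ≤ posUp W X D n :=
    h3.trans (Finset.single_le_sum (f := fun i => posSq W X D i) (fun _ _ => Nat.zero_le _)
      (Finset.mem_range.2 (Nat.succ_pos n)))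
  have h5 : 1 ≤ negUp W X D n :=
    h2.trans (Finset.single_le_sum (f := fun i => negSq W X D i) (fun _ _ => Nat.zero_le _)
      (Finset.mem_range.2 (Nat.lt_succ_self n)))
  calc 1 ≤ min (posUp W X D (min n (X.dim - n))) (negUp W X D (min n (X.dim - n))) := by
        rw [hmin]; exact le_min h4 h5
    _ ≤ _ := Finset.single_le_sum (f := fun c => min (posUp W X D (min c (X.dim - c)))
        (negUp W X D (min c (X.dim - c)))) (fun _ _ => Nat.zero_le _)
        (Finset.mem_range.2 (by omega))

lemma betti_le {i : ℕ} (hi : i ≤ 2 * X.dim) : W.betti X i ≤ W.betti X (2 * X.dim - i) := by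
  let B : W.gr X i →ₗ[W.K] Module.Dual W.K (W.gr X (2 * X.dim - i)) :=
    { toFun := fun a =>
        { toFun := fun b => W.tr X ((a : W.H X) * (b : W.H X))
          map_add' := fun b c => by rw [Submodule.coe_add, mul_add, map_add]
          map_smul' := fun r b => by
            rw [Submodule.coe_smul, mul_smul_comm, map_smul]
            rfl }
      map_add' := fun a b => by
        apply LinearMap.ext
        intro c
        change W.tr X (((a + b : W.gr X i) : W.H X) * (c : W.H X)) = W.tr X _ + W.tr X _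
        rw [Submodule.coe_add, add_mul, map_add]
      map_smul' := fun r a => by
        apply LinearMap.ext
        intro c
        change W.tr X (((r • a : W.gr X i) : W.H X) * (c : W.H X)) = r • W.tr X _
        rw [Submodule.coe_smul, smul_mul_assoc, map_smul] }
  have hB : Function.Injective B := by
    rw [injective_iff_map_eq_zero]
    intro a ha
    apply Subtype.ext
    rw [Submodule.coe_zero]
    apply W.nondeg
    intro b
    refine gr_induction (W.isInternal X) (p := fun b => W.tr X ((a : W.H X) * b) = 0) ?_ ?_ b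
    · intro j b hb
      by_cases hj : j = 2 * X.dim - i
      · subst hj
        exact congrArg (fun F : Module.Dual W.K (W.gr X (2 * X.dim - i)) => F ⟨b, hb⟩) ha
      · exact W.tr_eq_zero (W.mul_mem a.2 hb) (by omega)
    · intro b c hb hc
      rw [mul_add, map_add, hb, hc, add_zero]
  have h1 := LinearMap.finrank_le_finrank_of_injective hB
  rw [Subspace.dual_finrank_eq] at h1
  exact h1

/-- In some degree at most `dim X` the Betti number is large. -/
lemma exists_betti (W : WeilCohomology.{u, v} ops) (X : 𝒱.Obj) : ∃ e ≤ X.dim,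
    Module.finrank W.K (W.H X) ≤ (2 * X.dim + 1) * W.betti X e := by
  have h1 := finrank_eq_sum (W.isInternal X) (N := 2 * X.dim + 1)
    (fun i hi => W.gr_eq_bot X i (by omega))
  obtain ⟨e, he, hmax⟩ := Finset.exists_max_image (Finset.range (2 * X.dim + 1))
    (fun i => W.betti X i) ⟨0, by simp⟩
  have h2 : Module.finrank W.K (W.H X) ≤ (2 * X.dim + 1) * W.betti X e := by
    rw [h1]
    refine (Finset.sum_le_card_nsmul _ _ (W.betti X e) (fun i hi => hmax i hi)).trans ?_
    rw [Finset.card_range, smul_eq_mul]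
  rw [Finset.mem_range] at he
  rcases le_total e X.dim with h3 | h3
  · exact ⟨e, h3, h2⟩
  · refine ⟨2 * X.dim - e, by omega, h2.trans (Nat.mul_le_mul_left _ ?_)⟩
    exact betti_le (by omega)

lemma numRank_sq (W : WeilCohomology.{u, v} ops) (P : Polarized 𝒱) (n : ℕ) {e : ℕ}
    (he : e ≤ (Pool.Agent.Y163.sq P.X n).dim) :
    numRank ops (Pool.Agent.Y163.sq P.X n) e = numRank ops (ppw ops P (2 * n + 1)).X e := by
  have e1 : Pool.Agent.Y163.sq P.X n ≅ Pool.Agent.Y163.pw P.X (2 * n + 1) :=
    Pool.Agent.Y163.pwIso P.X n n ≪≫ eqToIso (by rw [show n + 1 + n = 2 * n + 1 by ring])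
  have hdim : (Pool.Agent.Y163.pw P.X (2 * n + 1)).dim = (Pool.Agent.Y163.sq P.X n).dim := by
    rw [Pool.Agent.Y163.dim_sq, Pool.Agent.Y163.dim_pw]
    ring
  rw [ppw_eq]
  change _ = numRank ops (Pool.Agent.Y163.pw P.X (2 * n + 1)) e
  rw [numRank_eq (W := W) he, numRank_eq (W := W) (by rw [hdim]; exact he), hdim]
  exact Pool.Agent.Y163.kRank_iso e1 hdim _ _

end Pool.Agent.V5helper84.SL
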