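import Pool.Agent.V5helper84.SL.Stm
import Pool.Agent.W539.Ker.Ops
import Pool.Agent.W539.Ker.Fam

/-!
# The signature of the form on algebraic classes is bounded by the rank of a projector
-/

open CategoryTheory AlgebraicGeometry

set_option autoImplicit false

universe u v

namespace Pool.Agent.V5helper84.SL

open Pool.Agent.H914 Pool.Agent.H914.VarClass Pool.Agent.H914.VarClass.Obj
  Pool.Agent.H914.WeilCohomology Pool.Agent.H281R3.HT Pool.Agent.W552 Pool.Agent.W539.Ker

variable {k : Type u} [Field k] {𝒱 : VarClass k} {ops : CycleOps 𝒱}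
  {W : WeilCohomology.{u, v} ops} {X Y : 𝒱.Obj} {D : X.Cycles} {f : Module.End W.K (W.H X)}

/-- The cohomology as a rational vector space. -/
@[reducible] noncomputable def ratMod (W : WeilCohomology.{u, v} ops) (X : 𝒱.Obj) :
    Module ℚ (W.H X) := Module.compHom (W.H X) (algebraMap ℚ W.K)

attribute [local instance] ratMod

lemma ratMod_smul (q : ℚ) (x : W.H X) : q • x = (q : W.K) • x := rfl

/-- The algebraic classes of weight `m`. -/
noncomputable def MS (W : WeilCohomology.{u, v} ops) (X : 𝒱.Obj) (m : ℤ) :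
    Submodule ℚ (W.H X) where
  carrier := {x | AS W X x ∧ wt (W.isInternal X) X.dim x = (m : W.K) • x}
  add_mem' := by
    rintro x y ⟨hx, hx'⟩ ⟨hy, hy'⟩
    exact ⟨hx.add hy, by rw [map_add, hx', hy', smul_add]⟩
  zero_mem' := ⟨AS.zero, by rw [map_zero, smul_zero]⟩
  smul_mem' := by
    rintro q x ⟨hx, hx'⟩
    refine ⟨hx.smul q, ?_⟩
    rw [ratMod_smul, map_smul, hx', smul_comm]

lemma mem_MS {m : ℤ} {x : W.H X} : x ∈ MS W X m ↔
    AS W X x ∧ wt (W.isInternal X) X.dim x = (m : W.K) • x := Iff.rfl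

lemma par_AS {x : W.H X} (hx : AS W X x) : par (W.isInternal X) x = x := by
  refine AS.ind (p := fun y => par (W.isInternal X) y = y) ?_ ?_ hx
  · intro j y hy
    rw [par, scal_apply _ _ (alg_gr hy), pow_mul]
    simp
  · intro y y' hy hy'
    rw [map_add, hy, hy']

/-- The rational form on the algebraic classes of weight `m`. -/
noncomputable def BS (F : Fr W X D f) (m : ℤ) : MS W X m →ₗ[ℚ] MS W X m →ₗ[ℚ] ℚ :=
  LinearMap.mk₂ ℚ (fun x y => (F.bf_rat x.2.1 y.2.1).choose)
    (fun x x' y => by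
      have h1 := (F.bf_rat (x + x').2.1 y.2.1).choose_spec
      have h2 := (F.bf_rat x.2.1 y.2.1).choose_spec
      have h3 := (F.bf_rat x'.2.1 y.2.1).choose_spec
      have h4 : (((F.bf_rat (x + x').2.1 y.2.1).choose : ℚ) : W.K) =
          (((F.bf_rat x.2.1 y.2.1).choose + (F.bf_rat x'.2.1 y.2.1).choose : ℚ) : W.K) := by
        rw [← h1, Rat.cast_add, ← h2, ← h3, Submodule.coe_add, map_add, LinearMap.add_apply]
      exact_mod_cast h4)
    (fun q x y => by
      have h1 := (F.bf_rat (q • x).2.1 y.2.1).choose_spec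
      have h2 := (F.bf_rat x.2.1 y.2.1).choose_spec
      have h4 : (((F.bf_rat (q • x).2.1 y.2.1).choose : ℚ) : W.K) =
          ((q * (F.bf_rat x.2.1 y.2.1).choose : ℚ) : W.K) := by
        rw [← h1, Rat.cast_mul, ← h2, Submodule.coe_smul, ratMod_smul, map_smul,
          LinearMap.smul_apply, smul_eq_mul]
      exact_mod_cast h4)
    (fun x y y' => by
      have h1 := (F.bf_rat x.2.1 (y + y').2.1).choose_spec
      have h2 := (F.bf_rat x.2.1 y.2.1).choose_spec
      have h3 := (F.bf_rat x.2.1 y'.2.1).choose_spec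
      have h4 : (((F.bf_rat x.2.1 (y + y').2.1).choose : ℚ) : W.K) =
          (((F.bf_rat x.2.1 y.2.1).choose + (F.bf_rat x.2.1 y'.2.1).choose : ℚ) : W.K) := by
        rw [← h1, Rat.cast_add, ← h2, ← h3, Submodule.coe_add, map_add]
      exact_mod_cast h4)
    (fun q x y => by
      have h1 := (F.bf_rat x.2.1 (q • y).2.1).choose_spec
      have h2 := (F.bf_rat x.2.1 y.2.1).choose_spec
      have h4 : (((F.bf_rat x.2.1 (q • y).2.1).choose : ℚ) : W.K) =
          ((q * (F.bf_rat x.2.1 y.2.1).choose : ℚ) : W.K) := by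
        rw [← h1, Rat.cast_mul, ← h2, Submodule.coe_smul, ratMod_smul, map_smul, smul_eq_mul]
      exact_mod_cast h4)

lemma BS_cast (F : Fr W X D f) (m : ℤ) (x y : MS W X m) :
    ((BS F m x y : ℚ) : W.K) = bf W X D f (x : W.H X) (y : W.H X) :=
  (F.bf_rat x.2.1 y.2.1).choose_spec.symm

lemma BS_symm (F : Fr W X D f) (S : Sy W X D f) (m : ℤ) (x y : MS W X m) :
    BS F m x y = BS F m y x := by
  have h1 : ((BS F m x y : ℚ) : W.K) = ((BS F m y x : ℚ) : W.K) := by
    rw [BS_cast, BS_cast, S, par_AS y.2.1]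
  exact_mod_cast h1

open Classical in
/-- The restriction of an operator to the algebraic classes of weight `m`. -/
noncomputable def rs (W : WeilCohomology.{u, v} ops) (X : 𝒱.Obj) (m : ℤ)
    (t : Module.End W.K (W.H X)) : Module.End ℚ (MS W X m) :=
  if h : ∀ x ∈ MS W X m, t x ∈ MS W X m then
    AddMonoidHom.toRatLinearMap
      { toFun := fun x => ⟨t x, h x x.2⟩
        map_zero' := Subtype.ext (by simp)
        map_add' := fun x y => Subtype.ext (by simp) }
  else 0

/-- The operator preserves the algebraic classes and commutes with the weight. -/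
def Ok (W : WeilCohomology.{u, v} ops) (X : 𝒱.Obj) (t : Module.End W.K (W.H X)) : Prop :=
  AOp W X X t ∧ Commute t (wt (W.isInternal X) X.dim)

lemma Ok.mem {t : Module.End W.K (W.H X)} (h : Ok W X t) (m : ℤ) :
    ∀ x ∈ MS W X m, t x ∈ MS W X m := by
  rintro x ⟨hx, hx'⟩
  refine ⟨h.1.apply hx, ?_⟩
  have h1 := congrArg (fun g => g x) h.2.eq
  simp only [Module.End.mul_apply] at h1
  rw [← h1, hx', map_smul]

lemma Ok.one : Ok W X 1 := ⟨AOp.one, Commute.one_left _⟩

lemma Ok.mul {t t' : Module.End W.K (W.H X)} (h : Ok W X t) (h' : Ok W X t') :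
    Ok W X (t * t') := ⟨h.1.mul h'.1, h.2.mul_left h'.2⟩

lemma Ok.sub {t t' : Module.End W.K (W.H X)} (h : Ok W X t) (h' : Ok W X t') :
    Ok W X (t - t') := by
  refine ⟨?_, h.2.sub_left h'.2⟩
  rw [sub_eq_add_neg]
  exact h.1.add (AOp.ratSub.neg h'.1)

lemma rs_apply {t : Module.End W.K (W.H X)} (h : Ok W X t) (m : ℤ) (x : MS W X m) :
    ((rs W X m t x : MS W X m) : W.H X) = t x := by
  rw [rs, dif_pos (h.mem m)]
  rfl

lemma rs_mul {t t' : Module.End W.K (W.H X)} (h : Ok W X t) (h' : Ok W X t') (m : ℤ) :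
    rs W X m (t * t') = rs W X m t * rs W X m t' := by
  apply LinearMap.ext
  intro x
  apply Subtype.ext
  rw [rs_apply (h.mul h'), Module.End.mul_apply, Module.End.mul_apply, rs_apply h, rs_apply h']

lemma rs_one (m : ℤ) : rs W X m 1 = 1 := by
  apply LinearMap.ext
  intro x
  apply Subtype.ext
  rw [rs_apply Ok.one]
  rfl

lemma rs_sub {t t' : Module.End W.K (W.H X)} (h : Ok W X t) (h' : Ok W X t') (m : ℤ) :
    rs W X m (t - t') = rs W X m t - rs W X m t' := by
  apply LinearMap.ext
  intro x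
  apply Subtype.ext
  rw [rs_apply (h.sub h'), LinearMap.sub_apply, LinearMap.sub_apply, Submodule.coe_sub,
    rs_apply h, rs_apply h']

/-- A pair of operators: an idempotent `P` and an anti-similitude `T` of its image. -/
structure Pair (W : WeilCohomology.{u, v} ops) (X : 𝒱.Obj) (D : X.Cycles)
    (f P T : Module.End W.K (W.H X)) (κ : ℚ) : Prop where
  okP : Ok W X P
  okT : Ok W X T
  idem : P * P = P
  PT : P * T = T
  self : ∀ x y, bf W X D f (P x) y = bf W X D f x (P y)
  anti : ∀ x y, bf W X D f (T x) (T y) = (κ : W.K) * bf W X D f (P x) y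
  neg : κ < 0

/-- The lists of pairs. -/
abbrev LP (W : WeilCohomology.{u, v} ops) (X : 𝒱.Obj) : Type _ :=
  List (Module.End W.K (W.H X) × Module.End W.K (W.H X) × ℚ)

/-- Two pairs commute. -/
def Comm {R : Type*} [Mul R] (a b : R × R × ℚ) : Prop :=
  Commute a.1 b.1 ∧ Commute a.2.1 b.1 ∧ Commute a.1 b.2.1

/-- The product of the complementary projectors. -/
noncomputable def QK (l : LP W X) : Module.End W.K (W.H X) := (l.map (fun a => 1 - a.1)).prod

lemma QK_nil : QK ([] : LP W X) = 1 := rfl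

lemma QK_cons (a : Module.End W.K (W.H X) × Module.End W.K (W.H X) × ℚ) (l : LP W X) :
    QK (a :: l) = (1 - a.1) * QK l := by
  rw [QK, QK, List.map_cons, List.prod_cons]

lemma QK_ok {l : LP W X} (hl : ∀ a ∈ l, Pair W X D f a.1 a.2.1 a.2.2) : Ok W X (QK l) := by
  induction l with
  | nil => exact Ok.one
  | cons a l ih =>
    rw [QK_cons]
    exact (Ok.one.sub (hl a List.mem_cons_self).okP).mul
      (ih (fun b hb => hl b (List.mem_cons_of_mem _ hb)))

/-- The restriction of a list of pairs. -/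
noncomputable def rl (W : WeilCohomology.{u, v} ops) (X : 𝒱.Obj) (m : ℤ) (l : LP W X) :
    List (Module.End ℚ (MS W X m) × Module.End ℚ (MS W X m) × ℚ) :=
  l.map (fun a => (rs W X m a.1, rs W X m a.2.1, a.2.2))

lemma Qp_rl {l : LP W X} (hl : ∀ a ∈ l, Pair W X D f a.1 a.2.1 a.2.2) (m : ℤ) :
    Qp (rl W X m l) = rs W X m (QK l) := by
  induction l with
  | nil =>
    rw [QK_nil, rs_one]
    rfl
  | cons a l ih =>
    have h1 := (hl a List.mem_cons_self).okP
    have h2 := ih (fun b hb => hl b (List.mem_cons_of_mem _ hb))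
    rw [QK_cons, rs_mul (Ok.one.sub h1) (QK_ok (fun b hb => hl b (List.mem_cons_of_mem _ hb))),
      rs_sub Ok.one h1, rs_one, ← h2]
    rfl

lemma Pair.pr {P T : Module.End W.K (W.H X)} {κ : ℚ} (F : Fr W X D f)
    (h : Pair W X D f P T κ) (m : ℤ) : Pr (BS F m) (rs W X m P) (rs W X m T) κ where
  idem := by rw [← rs_mul h.okP h.okP, h.idem]
  PT := by rw [← rs_mul h.okP h.okT, h.PT]
  self x y := by
    have h1 : ((BS F m (rs W X m P x) y : ℚ) : W.K) = ((BS F m x (rs W X m P y) : ℚ) : W.K) := by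
      rw [BS_cast, BS_cast, rs_apply h.okP, rs_apply h.okP, h.self]
    exact_mod_cast h1
  anti x y := by
    have h1 : ((BS F m (rs W X m T x) (rs W X m T y) : ℚ) : W.K) =
        ((κ * BS F m (rs W X m P x) y : ℚ) : W.K) := by
      rw [Rat.cast_mul, BS_cast, BS_cast, rs_apply h.okT, rs_apply h.okT, rs_apply h.okP, h.anti]
    exact_mod_cast h1
  neg := h.neg

/-- A family orthogonal for `bf (R x) y` has at most `rank R` members. -/
lemma bdd_comp (F : Fr W X D f) (m : ℤ) {R : Module.End W.K (W.H X)} (hR : Ok W X R) :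
    Bdd ((BS F m).comp (rs W X m R)) (Module.finrank W.K (LinearMap.range R)) := by
  intro n x h1 h2
  have hli : LinearIndependent W.K
      (fun i => (⟨R (x i : W.H X), LinearMap.mem_range_self _ _⟩ : LinearMap.range R)) := by
    rw [Fintype.linearIndependent_iff]
    intro g hg j
    have h3 : ∑ i, g i • R (x i : W.H X) = 0 := by
      have := congrArg Subtype.val hg
      simpa using this
    have h4 := congrArg (fun z => bf W X D f z (x j : W.H X)) h3
    simp only [map_sum, map_smul, LinearMap.sum_apply, LinearMap.smul_apply, smul_eq_mul,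
      map_zero, LinearMap.zero_apply] at h4
    rw [Finset.sum_eq_single j] at h4
    · have h5 : bf W X D f (R (x j : W.H X)) (x j : W.H X) =
          ((BS F m (rs W X m R (x j)) (x j) : ℚ) : W.K) := by
        rw [BS_cast, rs_apply hR]
      rw [h5] at h4
      rcases mul_eq_zero.1 h4 with h | h
      · exact h
      · exfalso
        apply h1 j
        change BS F m (rs W X m R (x j)) (x j) = 0
        exact_mod_cast h
    · intro i _ hij
      have h5 : bf W X D f (R (x i : W.H X)) (x j : W.H X) =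
          ((BS F m (rs W X m R (x i)) (x j) : ℚ) : W.K) := by
        rw [BS_cast, rs_apply hR]
      have h6 : BS F m (rs W X m R (x i)) (x j) = 0 := h2 i j hij
      rw [h5, h6, Rat.cast_zero, mul_zero]
    · intro h; exact absurd (Finset.mem_univ _) h
  have := hli.fintype_card_le_finrank
  rwa [Fintype.card_fin] at this

/-- **The signature in weight `m` is bounded by the rank of the projector.** -/
theorem wsum_le (hABS : S_ABS.{v}) (F : Fr W X D f) (S : Sy W X D f) {l : LP W X}
    (hl : ∀ a ∈ l, Pair W X D f a.1 a.2.1 a.2.2) (hc : l.Pairwise Comm) (m : ℤ) :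
    |wsum X.dim (sig W X D) m| ≤ Module.finrank W.K (LinearMap.range (QK l)) := by
  obtain ⟨ι, hι, y, s, h1, h2, h3, h4, h5, h6, h7⟩ := exists_fam F m
  let x : ι → MS W X m := fun i => ⟨y i, h1 i, h2 i⟩
  have hx : ∀ i, BS F m (x i) (x i) = s i := by
    intro i
    have : ((BS F m (x i) (x i) : ℚ) : W.K) = (s i : W.K) := by rw [BS_cast, ← h4 i]
    exact_mod_cast this
  have hOM : OM (BS F m) x := by
    refine ⟨fun i => by rw [hx]; exact h3 i, fun i j hij => ?_, fun z hz => ?_⟩
    · have : ((BS F m (x i) (x j) : ℚ) : W.K) = 0 := by rw [BS_cast]; exact h5 i j hij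
      exact_mod_cast this
    · have : ((BS F m z z : ℚ) : W.K) = 0 := by
        rw [BS_cast]
        apply h6 _ z.2.1 z.2.2
        intro i
        have h8 := congrArg (fun q : ℚ => (q : W.K)) (hz i)
        simp only [BS_cast, Rat.cast_zero] at h8
        exact h8
      exact_mod_cast this
  have hsgn : sgn (BS F m) = wsum X.dim (sig W X D) m := by
    rw [sgn, hOM.signature_eq (BS_symm F S m), ← h7]
    exact Finset.sum_congr rfl (fun i _ => by rw [hx])
  rw [← hsgn]
  have hbd : Bdd (BS F m) (Module.finrank W.K (LinearMap.range (1 : Module.End W.K (W.H X)))) := by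
    have := bdd_comp F m (Ok.one (W := W) (X := X))
    rw [rs_one] at this
    exact this
  refine hABS (MS W X m) _ _ (BS F m) (BS_symm F S m) _ hbd (rl W X m l) ?_ ?_ _ ?_
  · intro a ha
    obtain ⟨b, hb, rfl⟩ := List.mem_map.1 ha
    exact (hl b hb).pr F m
  · rw [rl, List.pairwise_map]
    refine List.Pairwise.imp_of_mem ?_ hc
    rintro a b ha hb ⟨c1, c2, c3⟩
    have ka := hl a ha
    have kb := hl b hb
    refine ⟨?_, ?_, ?_⟩
    · change _ * _ = _ * _
      rw [← rs_mul ka.okP kb.okP, ← rs_mul kb.okP ka.okP, c1.eq]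
    · change _ * _ = _ * _
      rw [← rs_mul ka.okT kb.okP, ← rs_mul kb.okP ka.okT, c2.eq]
    · change _ * _ = _ * _
      rw [← rs_mul ka.okP kb.okT, ← rs_mul kb.okT ka.okP, c3.eq]
  · rw [Qp_rl hl]
    exact bdd_comp F m (QK_ok hl)

end Pool.Agent.V5helper84.SL
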