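import Pool.Agent.V5helper84.SL.Two

/-!
# Project SL (signature law): the job PAIRS
-/

open CategoryTheory AlgebraicGeometry

set_option autoImplicit false

universe u v

namespace Pool.Agent.V5helper84.SL

open Pool.Agent.H914 Pool.Agent.H914.VarClass Pool.Agent.H914.VarClass.Obj
  Pool.Agent.H914.WeilCohomology Pool.Agent.H281R3.HT Pool.Agent.W552 Pool.Agent.W539.Ker

/-- The number of positive squares in the codimensions at most `c`. -/
noncomputable def posUp {k : Type u} [Field k] {𝒱 : VarClass k} {ops : CycleOps 𝒱}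
    (W : WeilCohomology.{u, v} ops) (X : 𝒱.Obj) (D : X.Cycles) (c : ℕ) : ℕ :=
  ∑ i ∈ Finset.range (c + 1), posSq W X D i

/-- The number of negative squares in the codimensions at most `c`. -/
noncomputable def negUp {k : Type u} [Field k] {𝒱 : VarClass k} {ops : CycleOps 𝒱}
    (W : WeilCohomology.{u, v} ops) (X : 𝒱.Obj) (D : X.Cycles) (c : ℕ) : ℕ :=
  ∑ i ∈ Finset.range (c + 1), negSq W X D i

/-- The sum over all codimensions `c` of the smaller of the numbers of the positive and of the
negative squares of the form on the classes of codimension `c`. -/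
noncomputable def pairsNo {k : Type u} [Field k] {𝒱 : VarClass k} {ops : CycleOps 𝒱}
    (W : WeilCohomology.{u, v} ops) (X : 𝒱.Obj) (D : X.Cycles) : ℕ :=
  ∑ c ∈ Finset.range (X.dim + 1),
    min (posUp W X D (min c (X.dim - c))) (negUp W X D (min c (X.dim - c)))

/-- **Job PAIRS** (about 250 lines).

Step 1. In every weight `m = 2 c - d`, `0 ≤ c ≤ d`, there is a maximal orthogonal family `y_i` of
algebraic classes of weight `m`, with `bf (y_i) (y_i) = s_i ≠ 0` rational, with exactly
`posUp (min c (d - c))` indices with `s_i > 0` and `negUp (min c (d - c))` with `s_i < 0`: this is the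
family of `exists_fam` (`Pool/Agent/W539/Ker/Fam.lean`), `y_{i,t} = L ^ (c - i) x_{i,t}`, `i ≤ min c (d - c)`,
where `x_{i,·}` is an `OM` family for `BP W hD i` (`exists_prim`), and by `bf_same` the sign of
`bf (y_{i,t}) (y_{i,t})` is the one of `pairing x_{i,t} x_{i,t}`; the number of `t` with positive squares
is `posSq i` (`OM.posIdx_eq`, `hasFamily_one`, `hasFamily_neg`).
Classes of different weights are orthogonal (`Fr.bf_deg`).

Step 2. Choose `min (posUp ..) (negUp ..)` disjoint pairs `(z, w)` (`z` positive, `w` negative) in every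
weight. Every pair gives operators `P`, `T` as in `exists_pair` (file `SL/Two.lean`; please factor out the
explicit operators, `P = c⁻¹ rk z z + c'⁻¹ rk w w`, `T = rk z w + rk w z`, with `rk_mul`). For orthogonal pairs
all products of these operators are zero, so they commute.

Step 3. `rank (QK (a :: l)) + 2 ≤ rank (QK l)`: since `P_b P_a = 0` for `b ∈ l`, `QK l * P_a = P_a`, so
`range P_a ≤ range (QK l)`, `QK (a :: l) = (1 - P_a) QK l = QK l - P_a` has its range in
`range (QK l) ⊓ ker P_a`, and `rank P_a ≥ 2`. -/
def S_PAIRS : Prop :=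
  ∀ (k : Type u) (_ : Field k) (𝒱 : VarClass k) (ops : CycleOps 𝒱) (W : WeilCohomology.{u, v} ops)
    (X : 𝒱.Obj) (D : X.Cycles) (f : Module.End W.K (W.H X)), Fr W X D f → Sy W X D f →
    ∃ l : LP W X, (∀ a ∈ l, Pair W X D f a.1 a.2.1 a.2.2) ∧ l.Pairwise Comm ∧
      Module.finrank W.K (LinearMap.range (QK l)) + 2 * pairsNo W X D ≤
        Module.finrank W.K (W.H X)

end Pool.Agent.V5helper84.SL
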