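import Pool.Agent.V5helper84.SL.Pow
import Pool.Agent.V5helper84.SL.Stm2

/-!
# The signatures on the powers are bounded
-/

open CategoryTheory AlgebraicGeometry

set_option autoImplicit false

universe u v

namespace Pool.Agent.V5helper84.SL

open Pool.Agent.H914 Pool.Agent.H914.VarClass Pool.Agent.H914.VarClass.Obj
  Pool.Agent.H914.WeilCohomology Pool.Agent.H281R3.HT Pool.Agent.W552 Pool.Agent.W539.Ker

variable {k : Type u} [Field k] {𝒱 : VarClass k} {ops : CycleOps 𝒱}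
  {W : WeilCohomology.{u, v} ops} {P Q : Polarized 𝒱}

/-- The signature of the form on the classes of codimension `c ≤ d / 2`. -/
noncomputable def sgUp (W : WeilCohomology.{u, v} ops) (P : Polarized 𝒱) (c : ℕ) : ℤ :=
  (posUp W P.X P.D c : ℤ) - negUp W P.X P.D c

lemma sgUp_eq (W : WeilCohomology.{u, v} ops) (P : Polarized 𝒱) (c : ℕ) :
    sgUp W P c = ∑ i ∈ Finset.range (c + 1), sig W P.X P.D i := by
  rw [sgUp, posUp, negUp]
  push_cast
  rw [← Finset.sum_sub_distrib]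
  rfl

lemma wsum_up (d : ℕ) (σ : ℕ → ℤ) {c : ℕ} (hc : 2 * c ≤ d) :
    wsum d σ (2 * (c : ℤ) - d) = ∑ i ∈ Finset.range (c + 1), σ i := by
  rw [wsum, ← Finset.sum_filter]
  apply Finset.sum_congr _ (fun _ _ => rfl)
  ext n
  rw [Finset.mem_filter, Finset.mem_range, Finset.mem_range]
  rw [abs_of_nonpos (by omega)]
  constructor
  · rintro ⟨h1, h2, h3⟩
    omega
  · intro h
    refine ⟨by omega, by omega, ⟨(c : ℤ), by ring⟩⟩

/-- The signature is bounded by the length of a chain. -/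
lemma sgUp_le (hABS : S_ABS.{v}) {f : Module.End W.K (W.H P.X)} (F : Fr W P.X P.D f)
    (S : Sy W P.X P.D f) {r : ℕ} (h : HasChain W P.X P.D f r) {c : ℕ} (hc : 2 * c ≤ P.X.dim) :
    |sgUp W P c| ≤ r := by
  rw [sgUp_eq, ← wsum_up _ _ hc]
  exact h.wsum_le hABS F S _

/-- **The bound for `V ^ (j + 1) × Y`.** -/
theorem sgUp_prod (hABS : S_ABS.{v}) {f : Module.End W.K (W.H P.X)} (F : Fm W P f)
    {g : Module.End W.K (W.H Q.X)} (G : Fr W Q.X Q.D g) (SG : Sy W Q.X Q.D g) {s : ℕ}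
    (h : HasChain W P.X P.D f s) (j : ℕ) {c : ℕ}
    (hc : 2 * c ≤ ((ppw ops P j).prod ops Q).X.dim) :
    |sgUp W ((ppw ops P j).prod ops Q) c| ≤
      ((s ^ (j + 1) * Module.finrank W.K (W.H Q.X) : ℕ) : ℤ) :=
  sgUp_le (P := (ppw ops P j).prod ops Q) hABS ((F.pow j).fr.prod G)
    ((F.pow j).sy.prod (F.pow j).fr G SG)
    (HasChain.prod (F.pow j).fr G (chain_pow F h j) (HasChain.triv W Q.X Q.D g)) hc

/-- **The bound for `V ^ (j + 1)`.** -/
theorem sgUp_pow (hABS : S_ABS.{v}) {f : Module.End W.K (W.H P.X)} (F : Fm W P f) {s : ℕ}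
    (h : HasChain W P.X P.D f s) (j : ℕ) {c : ℕ} (hc : 2 * c ≤ (ppw ops P j).X.dim) :
    |sgUp W (ppw ops P j) c| ≤ ((s ^ (j + 1) : ℕ) : ℤ) :=
  sgUp_le hABS (F.pow j).fr (F.pow j).sy (chain_pow F h j) hc

lemma posSq_iso (hISO : S_ISO.{u, v}) (hP : P.X.IsCyc 1 P.D) (hQ : Q.X.IsCyc 1 Q.D)
    (h : PIso W P Q) {n : ℕ} (hn : 2 * n ≤ P.X.dim) :
    posSq W P.X P.D n = posSq W Q.X Q.D n ∧ negSq W P.X P.D n = negSq W Q.X Q.D n := by
  have h1 := (hISO k _ 𝒱 ops W).1 P Q hP hQ h n hn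
  constructor
  · rw [posSq, posSq]
    congr 1
    ext r
    exact h1 1 r
  · rw [negSq, negSq]
    congr 1
    ext r
    exact h1 (-1) r

lemma sgUp_iso (hISO : S_ISO.{u, v}) (hP : P.X.IsCyc 1 P.D) (hQ : Q.X.IsCyc 1 Q.D)
    (h : PIso W P Q) {c : ℕ} (hc : 2 * c ≤ P.X.dim) : sgUp W P c = sgUp W Q c := by
  rw [sgUp_eq, sgUp_eq]
  apply Finset.sum_congr rfl
  intro i hi
  rw [Finset.mem_range] at hi
  obtain ⟨h1, h2⟩ := posSq_iso hISO hP hQ h (n := i) (by omega)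
  change (posSq W P.X P.D i : ℤ) - negSq W P.X P.D i =
    (posSq W Q.X Q.D i : ℤ) - negSq W Q.X Q.D i
  rw [h1, h2]

/-- **The bound for the powers of `P` by a chain for the power with `m + 1` factors.** -/
theorem sgUp_bound (hABS : S_ABS.{v}) (hISO : S_ISO.{u, v}) {f : Module.End W.K (W.H P.X)}
    (F : Fm W P f) {m s : ℕ}
    (h : HasChain W (ppw ops P m).X (ppw ops P m).D (fpw P f m) s) (n : ℕ) {c : ℕ}
    (hc : 2 * c ≤ (ppw ops P n).X.dim) :
    |sgUp W (ppw ops P n) c| ≤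
      ((s ^ ((n + 1) / (m + 1)) * Module.finrank W.K (W.H P.X) ^ ((n + 1) % (m + 1)) : ℕ) : ℤ) := by
  have hD := F.fr.hD
  have hI := (hISO k _ 𝒱 ops W).2.1 P hD m
  have hdm := Nat.div_add_mod (n + 1) (m + 1)
  have hlt := Nat.mod_lt (n + 1) (Nat.succ_pos m)
  rcases hq : (n + 1) / (m + 1) with _ | j
  · rw [hq, mul_zero, zero_add] at hdm
    rw [hdm, pow_zero, one_mul]
    have h1 := sgUp_le hABS (F.pow n).fr (F.pow n).sy (HasChain.triv W (ppw ops P n).X
      (ppw ops P n).D (fpw P f n)) hc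
    rwa [finrank_ppw] at h1
  · rw [hq] at hdm
    obtain ⟨N, hN, hi1, hi2⟩ := hI j
    rcases hr : (n + 1) % (m + 1) with _ | i
    · rw [hr, add_zero] at hdm
      have hn : N = n := by omega
      subst hn
      have hcd : (ppw ops (ppw ops P m) j).X.dim = (ppw ops P N).X.dim := hi1.1
      rw [pow_zero, mul_one, ← sgUp_iso hISO (ppw_cyc (ppw_cyc hD m) j) (ppw_cyc hD N) hi1
        (by rw [hcd]; exact hc)]
      exact sgUp_pow hABS (F.pow m) h j (by rw [hcd]; exact hc)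
    · rw [hr] at hdm
      have hn : N + 1 + i = n := by omega
      subst hn
      have hj := hi2 i
      have hcd : ((ppw ops (ppw ops P m) j).prod ops (ppw ops P i)).X.dim =
          (ppw ops P (N + 1 + i)).X.dim := hj.1
      rw [← sgUp_iso hISO (P := (ppw ops (ppw ops P m) j).prod ops (ppw ops P i))
        (SmVar.IsCyc.add (ops.pull_mem _ (ppw_cyc (ppw_cyc hD m) j))
          (ops.pull_mem _ (ppw_cyc hD i))) (ppw_cyc hD _) hj (by rw [hcd]; exact hc),
        ← finrank_ppw W P i]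
      exact sgUp_prod hABS (F.pow m) (F.pow i).fr (F.pow i).sy h j (by rw [hcd]; exact hc)

end Pool.Agent.V5helper84.SL
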