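import Pool.Agent.V5helper84.SL.Fin
import Pool.Agent.V5helper81.SL.ABS
import Pool.Agent.V5helper98.SL.ISO
import Pool.Agent.V5helper37.SL.RANK

/-!
# The zero-one law for the signatures: the main theorem
-/

open CategoryTheory AlgebraicGeometry

set_option autoImplicit false

universe u v

namespace Pool.Agent.V5helper84.SL

open Pool.Agent.H914 Pool.Agent.H914.VarClass Pool.Agent.H914.VarClass.Obj
  Pool.Agent.H914.WeilCohomology Pool.Agent.H281R3.HT Pool.Agent.W552 Pool.Agent.W539.Ker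
  Pool.Agent.W534

variable {k : Type u} [Field k] {𝒱 : VarClass k} {ops : CycleOps 𝒱}
  {W : WeilCohomology.{u, v} ops} {P Q : Polarized 𝒱}

lemma exists_fm (hD : P.X.IsCyc 1 P.D) (hHL : HardLefschetz W P.X P.D)
    (hB : LefschetzB W P.X P.D)
    (hpos : 0 < P.X.V.degCycle (divPow ops P.D P.X.dim P.X.V.fundCycle)) :
    ∃ f, Fm W P f := by
  obtain ⟨f, G⟩ := exists_gd hD hHL hB
  exact ⟨f, G.fr, G.sy, one_of_pos G.fr hpos⟩

lemma chain_pairs (hPAIRS : S_PAIRS.{u, v}) {f : Module.End W.K (W.H P.X)} (F : Fm W P f)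
    (m : ℕ) :
    HasChain W (ppw ops P m).X (ppw ops P m).D (fpw P f m)
      (Module.finrank W.K (W.H P.X) ^ (m + 1) -
        2 * pairsNo W (ppw ops P m).X (ppw ops P m).D) ∧
      2 * pairsNo W (ppw ops P m).X (ppw ops P m).D ≤ Module.finrank W.K (W.H P.X) ^ (m + 1) := by
  obtain ⟨l, h1, h2, h3⟩ := hPAIRS k _ 𝒱 ops W _ _ _ (F.pow m).fr (F.pow m).sy
  rw [finrank_ppw] at h3
  exact ⟨⟨l, h1, h2, by omega⟩, by omega⟩

/-- **The gap for the powers.** -/
theorem gap (hPAIRS : S_PAIRS.{u, v}) {f : Module.End W.K (W.H P.X)} (F : Fm W P f) (m n : ℕ)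
    {c : ℕ} (hc : 2 * c ≤ (ppw ops P n).X.dim) :
    |sgUp W (ppw ops P n) c| ≤
      (((Module.finrank W.K (W.H P.X) ^ (m + 1) -
        2 * pairsNo W (ppw ops P m).X (ppw ops P m).D) ^ ((n + 1) / (m + 1)) *
          Module.finrank W.K (W.H P.X) ^ ((n + 1) % (m + 1)) : ℕ) : ℤ) :=
  sgUp_bound V5helper81.SL.t_ABS V5helper98.SL.t_ISO F (chain_pairs hPAIRS F m).1 n hc

/-- **The gap for the products of a power with another variety.** -/
theorem gap_prod (hPAIRS : S_PAIRS.{u, v}) {f : Module.End W.K (W.H P.X)} (F : Fm W P f)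
    {g : Module.End W.K (W.H Q.X)} (G : Fr W Q.X Q.D g) (SG : Sy W Q.X Q.D g) (j : ℕ)
    {c : ℕ} (hc : 2 * c ≤ ((ppw ops P j).prod ops Q).X.dim) :
    |sgUp W ((ppw ops P j).prod ops Q) c| ≤
      (((Module.finrank W.K (W.H P.X) - 2 * pairsNo W P.X P.D) ^ (j + 1) *
          Module.finrank W.K (W.H Q.X) : ℕ) : ℤ) := by
  obtain ⟨l, h1, h2, h3⟩ := hPAIRS k _ 𝒱 ops W _ _ _ F.fr F.sy
  exact sgUp_prod V5helper81.SL.t_ABS F G SG ⟨l, h1, h2, by omega⟩ j hc

/-- The maximal growth of the signatures. -/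
def SgGrowth (W : WeilCohomology.{u, v} ops) (P : Polarized 𝒱) : Prop :=
  ∀ θ : ℝ, 0 ≤ θ → θ < Module.finrank W.K (W.H P.X) → ∀ M : ℕ, ∃ n ≥ M, ∃ c,
    2 * c ≤ (ppw ops P n).X.dim ∧ θ ^ (n + 1) ≤ |(sgUp W (ppw ops P n) c : ℝ)|

lemma hodge_of_growth (hPAIRS : S_PAIRS.{u, v}) {f : Module.End W.K (W.H P.X)} (F : Fm W P f)
    (h : SgGrowth W P) (m : ℕ) : HodgeNum W (ppw ops P m).X (ppw ops P m).D := by
  by_contra hn
  have h1 := one_le_pairsNo (F.pow m).fr (F.pow m).one hn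
  obtain ⟨h2, h3⟩ := chain_pairs hPAIRS F m
  refine gap_contra (m := m) (b := Module.finrank W.K (W.H P.X))
    (s := Module.finrank W.K (W.H P.X) ^ (m + 1) -
        2 * pairsNo W (ppw ops P m).X (ppw ops P m).D) (by omega)
    (fun n c => |(sgUp W (ppw ops P n) c : ℝ)|) (fun n c => 2 * c ≤ (ppw ops P n).X.dim) ?_ h
  intro n c hc
  have h4 := gap hPAIRS F m n hc
  have h5 : ((|sgUp W (ppw ops P n) c| : ℤ) : ℝ) ≤ (((((Module.finrank W.K (W.H P.X) ^ (m + 1) -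
        2 * pairsNo W (ppw ops P m).X (ppw ops P m).D) ^ ((n + 1) / (m + 1)) *
          Module.finrank W.K (W.H P.X) ^ ((n + 1) % (m + 1)) : ℕ) : ℤ)) : ℝ) := by
    exact_mod_cast h4
  rw [Int.cast_abs] at h5
  refine h5.trans (le_of_eq ?_)
  push_cast
  rfl

/-- The number of squares is the rank. -/
lemma rank_eq (hD : P.X.IsCyc 1 P.D) (hHL : HardLefschetz W P.X P.D)
    (hB : LefschetzB W P.X P.D) (n : ℕ) {c : ℕ} (hc : 2 * c ≤ (ppw ops P n).X.dim) :
    numRank ops (ppw ops P n).X c =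
      posUp W (ppw ops P n).X (ppw ops P n).D c + negUp W (ppw ops P n).X (ppw ops P n).D c := by
  rw [V5helper37.SL.t_RANK k _ 𝒱 ops W _ _ (ppw_cyc hD n) (ppw_hard hD hHL n)
    (ppw_B hD hHL hB n) c hc, posUp, negUp, Finset.sum_add_distrib]

/-- The lower bound for the signatures from the conjecture. -/
lemma low_of_hodge (hD : P.X.IsCyc 1 P.D) (hHL : HardLefschetz W P.X P.D)
    (hB : LefschetzB W P.X P.D)
    (h : ∀ n, HodgeNum W (ppw ops P n).X (ppw ops P n).D) (n e : ℕ) (he : e ≤ (n + 1) * P.X.dim) :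
    (W.betti (Pool.Agent.Y163.pw P.X n) e : ℤ) ^ 2 ≤
      (n + 2) ^ (Module.finrank W.K (W.H P.X) ^ 2) * sgUp W (ppw ops P (2 * n + 1)) e := by
  have h1 := Pool.Agent.V5helper86.GB.betti_sq_le' hD hHL hB n e
  have hdim : (ppw ops P (2 * n + 1)).X.dim = 2 * ((n + 1) * P.X.dim) := by
    rw [dim_ppw]; ring
  rw [numRank_sq W P n (by rw [Pool.Agent.Y163.dim_sq]; omega),
    rank_eq hD hHL hB (2 * n + 1) (by rw [hdim]; omega),
    negUp_eq_zero (ppw_cyc hD _) (h (2 * n + 1)) (by rw [hdim]; omega), add_zero] at h1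
  rw [sgUp, negUp_eq_zero (ppw_cyc hD _) (h (2 * n + 1)) (by rw [hdim]; omega)]
  push_cast
  rw [sub_zero]
  exact_mod_cast h1

/-- The lower bounds give the maximal growth. -/
lemma growth_of_low
    (h : ∀ n e : ℕ, e ≤ (n + 1) * P.X.dim → (W.betti (Pool.Agent.Y163.pw P.X n) e : ℤ) ^ 2 ≤
      (n + 2) ^ (Module.finrank W.K (W.H P.X) ^ 2) * |sgUp W (ppw ops P (2 * n + 1)) e|) :
    SgGrowth W P := by
  intro θ hθ0 hθ M
  rcases hθ0.eq_or_lt with hz | hpos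
  · refine ⟨M, le_rfl, 0, Nat.zero_le _, ?_⟩
    rw [← hz, zero_pow (Nat.succ_ne_zero _)]
    exact abs_nonneg _
  set b := Module.finrank W.K (W.H P.X) with hb
  obtain ⟨N, hN⟩ := growth_low (b := b) (d := P.X.dim) (a := b ^ 2) hpos hθ
  set n := max M N with hn
  have h1 := hN n (le_max_right _ _)
  obtain ⟨e, he, h2⟩ := exists_betti W (Pool.Agent.Y163.pw P.X n)
  rw [Pool.Agent.Y163.dim_pw] at he h2
  rw [Pool.Agent.Y163.finrank_pw, ← hb] at h2
  have h3 := h n e he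
  have hdim : (ppw ops P (2 * n + 1)).X.dim = 2 * ((n + 1) * P.X.dim) := by
    rw [dim_ppw]; ring
  refine ⟨2 * n + 1, by have := le_max_left M N; omega, e, by rw [hdim]; omega, ?_⟩
  have h3' : ((W.betti (Pool.Agent.Y163.pw P.X n) e : ℕ) : ℝ) ^ 2 ≤
      ((n : ℝ) + 2) ^ (b ^ 2) * |(sgUp W (ppw ops P (2 * n + 1)) e : ℝ)| := by
    have h4 : ((((W.betti (Pool.Agent.Y163.pw P.X n) e : ℤ) ^ 2 : ℤ)) : ℝ) ≤
      ((((n : ℤ) + 2) ^ (b ^ 2) * |sgUp W (ppw ops P (2 * n + 1)) e| : ℤ) : ℝ) := by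
      exact_mod_cast h3
    push_cast at h4
    exact h4
  have h2' : (b : ℝ) ^ (n + 1) ≤ ((2 * ((n + 1) * P.X.dim) + 1 : ℕ) : ℝ) *
      ((W.betti (Pool.Agent.Y163.pw P.X n) e : ℕ) : ℝ) := by exact_mod_cast h2
  set C : ℝ := ((2 * ((n + 1) * P.X.dim) + 1 : ℕ) : ℝ) with hC
  have hC1 : 0 < C := by rw [hC]; positivity
  set E : ℝ := ((n : ℝ) + 2) ^ (b ^ 2) with hE
  have hE1 : 0 < E := by rw [hE]; positivity
  set S : ℝ := |(sgUp W (ppw ops P (2 * n + 1)) e : ℝ)| with hS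
  set x : ℝ := ((W.betti (Pool.Agent.Y163.pw P.X n) e : ℕ) : ℝ) with hx
  have h5 : ((b : ℝ) ^ (n + 1)) ^ 2 ≤ (C * x) ^ 2 :=
    pow_le_pow_left₀ (by positivity) h2' 2
  have h6 : θ ^ (2 * n + 2) * C ^ 2 * E ≤ S * C ^ 2 * E := by
    calc θ ^ (2 * n + 2) * C ^ 2 * E ≤ ((b : ℝ) ^ (n + 1)) ^ 2 := h1
      _ ≤ (C * x) ^ 2 := h5
      _ = C ^ 2 * x ^ 2 := by ring
      _ ≤ C ^ 2 * (E * S) := mul_le_mul_of_nonneg_left h3' (by positivity)
      _ = S * C ^ 2 * E := by ring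
  have h7 : θ ^ (2 * n + 2) ≤ S := by
    have h8 : 0 < C ^ 2 * E := by positivity
    rw [mul_assoc, mul_assoc] at h6
    exact le_of_mul_le_mul_right h6 h8
  exact h7

/-- **The zero-one law.** -/
theorem law (hPAIRS : S_PAIRS.{u, v}) (hD : P.X.IsCyc 1 P.D) (hHL : HardLefschetz W P.X P.D)
    (hB : LefschetzB W P.X P.D)
    (hpos : 0 < P.X.V.degCycle (divPow ops P.D P.X.dim P.X.V.fundCycle)) :
    List.TFAE [
      ∀ n, HodgeNum W (ppw ops P n).X (ppw ops P n).D,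
      ∀ n e : ℕ, e ≤ (n + 1) * P.X.dim →
        (W.betti (Pool.Agent.Y163.pw P.X n) e : ℤ) ^ 2 ≤
          (n + 2) ^ (Module.finrank W.K (W.H P.X) ^ 2) * |sgUp W (ppw ops P (2 * n + 1)) e|,
      SgGrowth W P,
      ∃ ε : ℝ, 0 < ε ∧ ∀ θ : ℝ, 0 ≤ θ → θ < Module.finrank W.K (W.H P.X) → ∀ M : ℕ,
        ∃ n ≥ M, ∃ c, 2 * c ≤ (ppw ops P n).X.dim ∧
          θ ^ (n + 1) ≤ (numRank ops (ppw ops P n).X c : ℝ) ∧
          (negUp W (ppw ops P n).X (ppw ops P n).D c : ℝ) ≤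
            (1 / 2 - ε) * (numRank ops (ppw ops P n).X c : ℝ)] := by
  obtain ⟨f, F⟩ := exists_fm hD hHL hB hpos
  tfae_have 1 → 2 := by
    intro h n e he
    refine (low_of_hodge hD hHL hB h n e he).trans ?_
    exact mul_le_mul_of_nonneg_left (le_abs_self _) (by positivity)
  tfae_have 2 → 3 := growth_of_low
  tfae_have 3 → 1 := fun h m => hodge_of_growth hPAIRS F h m
  tfae_have 1 → 4 := by
    intro h
    have hg : SgGrowth W P := growth_of_low fun n e he =>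
      (low_of_hodge hD hHL hB h n e he).trans
        (mul_le_mul_of_nonneg_left (le_abs_self _) (by positivity))
    refine ⟨1 / 4, by norm_num, fun θ h0 hθ M => ?_⟩
    obtain ⟨n, hn, c, hc, h1⟩ := hg θ h0 hθ M
    refine ⟨n, hn, c, hc, ?_, ?_⟩
    · rw [rank_eq hD hHL hB n hc]
      rw [sgUp, negUp_eq_zero (ppw_cyc hD _) (h n) hc] at h1
      rw [negUp_eq_zero (ppw_cyc hD _) (h n) hc]
      push_cast at h1
      rw [sub_zero, abs_of_nonneg (Nat.cast_nonneg _)] at h1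
      rw [add_zero]
      exact h1
    · rw [negUp_eq_zero (ppw_cyc hD _) (h n) hc]
      push_cast
      positivity
  tfae_have 4 → 3 := by
    rintro ⟨ε, hε, h⟩
    have h2 := growth_ratio (b := Module.finrank W.K (W.H P.X)) (ε := 2 * ε) (by positivity)
      (fun n c => |(sgUp W (ppw ops P n) c : ℝ)|)
      (fun n c => (numRank ops (ppw ops P n).X c : ℝ))
      (fun n c => 2 * c ≤ (ppw ops P n).X.dim ∧
        (negUp W (ppw ops P n).X (ppw ops P n).D c : ℝ) ≤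
            (1 / 2 - ε) * (numRank ops (ppw ops P n).X c : ℝ)) (by
        rintro n c ⟨hc, h1⟩
        have h2 : (numRank ops (ppw ops P n).X c : ℝ) =
            (posUp W (ppw ops P n).X (ppw ops P n).D c : ℝ) +
              (negUp W (ppw ops P n).X (ppw ops P n).D c : ℝ) := by
          rw [rank_eq hD hHL hB n hc]
          push_cast
          rfl
        have h3 : (sgUp W (ppw ops P n) c : ℝ) =
            (posUp W (ppw ops P n).X (ppw ops P n).D c : ℝ) -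
              (negUp W (ppw ops P n).X (ppw ops P n).D c : ℝ) := by
          rw [sgUp]
          push_cast
          rfl
        refine le_trans ?_ (le_abs_self _)
        rw [h3]
        linarith) (by
        intro θ h0 hθ M
        obtain ⟨n, hn, c, hc, h1, h2⟩ := h θ h0 hθ M
        exact ⟨n, hn, c, ⟨hc, h2⟩, h1⟩)
    intro θ h0 hθ M
    obtain ⟨n, hn, c, ⟨hc, _⟩, h1⟩ := h2 θ h0 hθ M
    exact ⟨n, hn, c, hc, h1⟩
  tfae_finish

end Pool.Agent.V5helper84.SL
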