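import Pool.Agent.V5helper84.SL.Main
import Pool.Agent.V5helper84.SL.Conv
import Pool.Agent.V5helper84.SL.Ana2

/-!
# The zero-one law for the signatures: the middle codimensions of the even powers
-/

open CategoryTheory AlgebraicGeometry

set_option autoImplicit false

universe u v

namespace Pool.Agent.V5helper84.SL

open Pool.Agent.H914 Pool.Agent.H914.VarClass Pool.Agent.H914.VarClass.Obj
  Pool.Agent.H914.WeilCohomology Pool.Agent.H281R3.HT Pool.Agent.W552 Pool.Agent.W539.Ker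
  Pool.Agent.W534

variable {k : Type u} [Field k] {𝒱 : VarClass k} {ops : CycleOps 𝒱}
  {W : WeilCohomology.{u, v} ops} {P Q : Polarized 𝒱}

/-- The rank of the group of cycles of middle codimension modulo numerical equivalence on the
power with `2 n + 2` factors. -/
noncomputable def rkMid (ops : CycleOps 𝒱) (P : Polarized 𝒱) (n : ℕ) : ℕ :=
  numRank ops (ppw ops P (2 * n + 1)).X ((n + 1) * P.X.dim)

/-- The number of negative squares in the middle codimension on the power with `2 n + 2`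
factors. -/
noncomputable def negMid (W : WeilCohomology.{u, v} ops) (P : Polarized 𝒱) (n : ℕ) : ℕ :=
  negUp W (ppw ops P (2 * n + 1)).X (ppw ops P (2 * n + 1)).D ((n + 1) * P.X.dim)

section

variable (hD : P.X.IsCyc 1 P.D) (hHL : HardLefschetz W P.X P.D) (hB : LefschetzB W P.X P.D)

include hD hHL hB

lemma sgMid_eq (n : ℕ) : sgMid W P n = (rkMid ops P n : ℤ) - 2 * (negMid W P n : ℤ) := by
  rw [sgMid, sgUp, rkMid, negMid, rank_eq hD hHL hB (2 * n + 1) (dim_even P n).ge]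
  push_cast
  ring

/-- The lower bound for the rank. -/
lemma rkMid_low (n : ℕ) {e : ℕ} (he : e ≤ (n + 1) * P.X.dim) :
    W.betti (Pool.Agent.Y163.pw P.X n) e ^ 2 ≤
      (n + 2) ^ (Module.finrank W.K (W.H P.X) ^ 2) * rkMid ops P n := by
  have h1 := Pool.Agent.V5helper86.GB.betti_sq_le' hD hHL hB n e
  have hdim := dim_even (ops := ops) P n
  rw [numRank_sq W P n (by rw [Pool.Agent.Y163.dim_sq]; omega),
    rank_eq hD hHL hB (2 * n + 1) (by rw [hdim]; omega)] at h1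
  refine h1.trans (Nat.mul_le_mul_left _ ?_)
  rw [rkMid, rank_eq hD hHL hB (2 * n + 1) hdim.ge]
  refine Nat.add_le_add ?_ ?_
  · exact Finset.sum_le_sum_of_subset (Finset.range_mono (by omega))
  · exact Finset.sum_le_sum_of_subset (Finset.range_mono (by omega))

lemma rkMid_growth {x : ℝ} (hx : 0 < x) (hxb : x < Module.finrank W.K (W.H P.X)) :
    ∃ N : ℕ, ∀ n ≥ N, x ^ (2 * n + 2) ≤ (rkMid ops P n : ℝ) := by
  set b := Module.finrank W.K (W.H P.X) with hb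
  obtain ⟨N, hN⟩ := growth_low (b := b) (d := P.X.dim) (a := b ^ 2) hx hxb
  refine ⟨N, fun n hn => ?_⟩
  have h1 := hN n hn
  obtain ⟨e, he, h2⟩ := exists_betti W (Pool.Agent.Y163.pw P.X n)
  rw [Pool.Agent.Y163.dim_pw] at he h2
  rw [Pool.Agent.Y163.finrank_pw, ← hb] at h2
  have h3 := rkMid_low hD hHL hB n he
  rw [← hb] at h3
  have h3' : ((W.betti (Pool.Agent.Y163.pw P.X n) e : ℕ) : ℝ) ^ 2 ≤
      ((n : ℝ) + 2) ^ (b ^ 2) * (rkMid ops P n : ℝ) := by exact_mod_cast h3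
  have h2' : (b : ℝ) ^ (n + 1) ≤ ((2 * ((n + 1) * P.X.dim) + 1 : ℕ) : ℝ) *
      ((W.betti (Pool.Agent.Y163.pw P.X n) e : ℕ) : ℝ) := by exact_mod_cast h2
  set C : ℝ := ((2 * ((n + 1) * P.X.dim) + 1 : ℕ) : ℝ) with hC
  have hC1 : 0 < C := by rw [hC]; positivity
  set E : ℝ := ((n : ℝ) + 2) ^ (b ^ 2) with hE
  have hE1 : 0 < E := by rw [hE]; positivity
  set y : ℝ := ((W.betti (Pool.Agent.Y163.pw P.X n) e : ℕ) : ℝ) with hy
  have h5 : ((b : ℝ) ^ (n + 1)) ^ 2 ≤ (C * y) ^ 2 :=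
    pow_le_pow_left₀ (by positivity) h2' 2
  have h6 : x ^ (2 * n + 2) * C ^ 2 * E ≤ (rkMid ops P n : ℝ) * C ^ 2 * E := by
    calc x ^ (2 * n + 2) * C ^ 2 * E ≤ ((b : ℝ) ^ (n + 1)) ^ 2 := h1
      _ ≤ (C * y) ^ 2 := h5
      _ = C ^ 2 * y ^ 2 := by ring
      _ ≤ C ^ 2 * (E * (rkMid ops P n : ℝ)) := mul_le_mul_of_nonneg_left h3' (by positivity)
      _ = (rkMid ops P n : ℝ) * C ^ 2 * E := by ring
  have h8 : 0 < C ^ 2 * E := by positivity
  rw [mul_assoc, mul_assoc] at h6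
  exact le_of_mul_le_mul_right h6 h8

end

/-- The main inequality for the ratios. -/
theorem ratio_le (hPAIRS : S_PAIRS.{u, v}) (hD : P.X.IsCyc 1 P.D)
    (hHL : HardLefschetz W P.X P.D) (hB : LefschetzB W P.X P.D)
    {f : Module.End W.K (W.H P.X)} (F : Fm W P f) (m n : ℕ) :
    sgMid W P (n + 1) ^ (m + 1) ≤
      ((Module.finrank W.K (W.H P.X) ^ (m + 1) -
        2 * pairsNo W (ppw ops P m).X (ppw ops P m).D : ℕ) : ℤ) ^ 2 * sgMid W P n ^ (m + 1) := by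
  set s := Module.finrank W.K (W.H P.X) ^ (m + 1) -
        2 * pairsNo W (ppw ops P m).X (ppw ops P m).D with hs
  set b := Module.finrank W.K (W.H P.X) with hb
  have h0 : ∀ n, (0 : ℝ) < (sgMid W P n : ℝ) := fun n => by
    exact_mod_cast sgMid_pos V5helper98.SL.t_ISO hD hHL hB F n
  have hc : ∀ n, (sgMid W P (n + 1) : ℝ) * (sgMid W P (n + 1) : ℝ) ≤
      (sgMid W P n : ℝ) * (sgMid W P (n + 2) : ℝ) := fun n => by
    exact_mod_cast sgMid_sq_le V5helper98.SL.t_ISO hD hHL hB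
      (sgMid_pos V5helper98.SL.t_ISO hD hHL hB F n)
  have hbd : ∀ n, (sgMid W P n : ℝ) ≤
      ((s ^ ((2 * n + 2) / (m + 1)) * b ^ ((2 * n + 2) % (m + 1)) : ℕ) : ℝ) := fun n => by
    have h1 := gap hPAIRS F m (2 * n + 1) (c := (n + 1) * P.X.dim) (dim_even P n).ge
    have h2 := (le_abs_self _).trans h1
    exact_mod_cast h2
  have h1 := lc_bound h0 hc hbd n
  exact_mod_cast h1

/-- **The zero-one law.** -/
theorem law2 (hPAIRS : S_PAIRS.{u, v}) (hD : P.X.IsCyc 1 P.D) (hHL : HardLefschetz W P.X P.D)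
    (hB : LefschetzB W P.X P.D)
    (hpos : 0 < P.X.V.degCycle (divPow ops P.D P.X.dim P.X.V.fundCycle)) :
    List.TFAE [
      ∀ n, HodgeNum W (ppw ops P n).X (ppw ops P n).D,
      ∀ n, negMid W P n = 0,
      ∀ θ : ℝ, 0 ≤ θ → θ < (Module.finrank W.K (W.H P.X) : ℝ) ^ 2 →
        ∃ n, θ * (sgMid W P n : ℝ) < (sgMid W P (n + 1) : ℝ),
      ∀ δ : ℝ, 0 < δ → δ < 1 → ∀ M : ℕ, ∃ n ≥ M,
        (negMid W P n : ℝ) ≤ (1 / 2 - (1 - δ) ^ n) * (rkMid ops P n : ℝ),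
      SgGrowth W P,
      ∃ ε : ℝ, 0 < ε ∧ ∀ θ : ℝ, 0 ≤ θ → θ < Module.finrank W.K (W.H P.X) → ∀ M : ℕ,
        ∃ n ≥ M, ∃ c, 2 * c ≤ (ppw ops P n).X.dim ∧
          θ ^ (n + 1) ≤ (numRank ops (ppw ops P n).X c : ℝ) ∧
          (negUp W (ppw ops P n).X (ppw ops P n).D c : ℝ) ≤
            (1 / 2 - ε) * (numRank ops (ppw ops P n).X c : ℝ)] := by
  obtain ⟨f, F⟩ := exists_fm hD hHL hB hpos
  have hT := law hPAIRS hD hHL hB hpos
  have h0 : ∀ n, (0 : ℝ) < (sgMid W P n : ℝ) := fun n => by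
    exact_mod_cast sgMid_pos V5helper98.SL.t_ISO hD hHL hB F n
  tfae_have 1 → 2 := fun h n => negUp_eq_zero (ppw_cyc hD _) (h _) (dim_even P n).ge
  tfae_have 2 → 3 := by
    intro h θ hθ hθb
    refine exists_ratio (b := Module.finrank W.K (W.H P.X)) h0 (fun x hx hxb => ?_) hθ hθb
    obtain ⟨N, hN⟩ := rkMid_growth hD hHL hB hx hxb
    refine ⟨N, fun n hn => (hN n hn).trans (le_of_eq ?_)⟩
    have h1 := sgMid_eq hD hHL hB n
    rw [h n, Nat.cast_zero, mul_zero, sub_zero] at h1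
    rw [h1]
    push_cast
    rfl
  tfae_have 3 → 1 := by
    intro h m
    by_contra hn
    have h1 := one_le_pairsNo (F.pow m).fr (F.pow m).one hn
    obtain ⟨-, h3⟩ := chain_pairs hPAIRS F m
    set b := Module.finrank W.K (W.H P.X) with hb
    set s := b ^ (m + 1) - 2 * pairsNo W (ppw ops P m).X (ppw ops P m).D with hs
    have hsb : s + 2 ≤ b ^ (m + 1) := by omega
    have hs0 : (0 : ℝ) ≤ s := Nat.cast_nonneg s
    have hsB : (s : ℝ) < (b : ℝ) ^ (m + 1) := by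
      have : ((s + 2 : ℕ) : ℝ) ≤ ((b ^ (m + 1) : ℕ) : ℝ) := by exact_mod_cast hsb
      push_cast at this
      linarith
    set θ : ℝ := ((s : ℝ) ^ 2) ^ (((m + 1 : ℕ) : ℝ)⁻¹) with hθ
    have hθp : θ ^ (m + 1) = (s : ℝ) ^ 2 := by
      rw [hθ]
      exact Real.rpow_inv_natCast_pow (by positivity) (Nat.succ_ne_zero m)
    have hθ0 : 0 ≤ θ := Real.rpow_nonneg (by positivity) _
    have hθb : θ < (b : ℝ) ^ 2 := by
      apply lt_of_pow_lt_pow_left₀ (m + 1) (by positivity)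
      rw [hθp, ← pow_mul, mul_comm 2, pow_mul]
      exact pow_lt_pow_left₀ hsB hs0 two_ne_zero
    obtain ⟨n, hn⟩ := h θ hθ0 hθb
    have h4 : (θ * (sgMid W P n : ℝ)) ^ (m + 1) < (sgMid W P (n + 1) : ℝ) ^ (m + 1) :=
      pow_lt_pow_left₀ hn (mul_nonneg hθ0 (h0 n).le) (Nat.succ_ne_zero m)
    rw [mul_pow, hθp] at h4
    have h5 : (sgMid W P (n + 1) : ℝ) ^ (m + 1) ≤ (s : ℝ) ^ 2 * (sgMid W P n : ℝ) ^ (m + 1) := by
      exact_mod_cast ratio_le hPAIRS hD hHL hB F m n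
    linarith
  tfae_have 1 ↔ 5 := hT.out 0 2
  tfae_have 1 ↔ 6 := hT.out 0 3
  tfae_have 2 → 4 := by
    intro h δ hδ hδ1 M
    obtain ⟨N, hN⟩ := exists_pow_lt_of_lt_one (y := 1 - δ) (x := (1 / 2 : ℝ)) (by norm_num)
      (by linarith)
    refine ⟨max M N, le_max_left _ _, ?_⟩
    rw [h, Nat.cast_zero]
    refine mul_nonneg ?_ (Nat.cast_nonneg _)
    have h1 : (1 - δ) ^ (max M N) ≤ (1 - δ) ^ N :=
      pow_le_pow_of_le_one (by linarith) (by linarith) (le_max_right _ _)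
    linarith
  tfae_have 4 → 5 := by
    intro h θ hθ0 hθ M
    rcases hθ0.eq_or_lt with hz | hpos'
    · refine ⟨M, le_rfl, 0, Nat.zero_le _, ?_⟩
      rw [← hz, zero_pow (Nat.succ_ne_zero _)]
      exact abs_nonneg _
    obtain ⟨x, hx1, hx2⟩ := exists_between hθ
    have hx0 : 0 < x := hθ0.trans_lt hx1
    obtain ⟨N, hN⟩ := rkMid_growth hD hHL hB hx0 hx2
    have hq0 : 0 < (θ / x) ^ 2 := by positivity
    have hq1 : (θ / x) ^ 2 < 1 := by
      rw [div_pow, div_lt_one (by positivity)]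
      exact pow_lt_pow_left₀ hx1 hθ0 two_ne_zero
    obtain ⟨n, hn, h1⟩ := h (1 - (θ / x) ^ 2) (by linarith) (by linarith) (max M N)
    have h2 := hN n ((le_max_right _ _).trans hn)
    refine ⟨2 * n + 1, by have := (le_max_left M N).trans hn; omega, (n + 1) * P.X.dim,
      (dim_even P n).ge, ?_⟩
    have h3 : (sgMid W P n : ℝ) = (rkMid ops P n : ℝ) - 2 * (negMid W P n : ℝ) := by
      rw [sgMid_eq hD hHL hB n]
      push_cast
      rfl
    rw [sub_sub_cancel] at h1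
    change θ ^ (2 * n + 1 + 1) ≤ |((sgMid W P n : ℤ) : ℝ)|
    refine le_trans ?_ (le_abs_self _)
    rw [h3]
    have h4 : ((θ / x) ^ 2) ^ n * (rkMid ops P n : ℝ) * 2 ≤
        (rkMid ops P n : ℝ) - 2 * (negMid W P n : ℝ) := by linarith
    refine le_trans ?_ h4
    have h5 : ((θ / x) ^ 2) ^ n * x ^ (2 * n + 2) ≤ ((θ / x) ^ 2) ^ n * (rkMid ops P n : ℝ) :=
      mul_le_mul_of_nonneg_left h2 (by positivity)
    have h6 : ((θ / x) ^ 2) ^ n * x ^ (2 * n + 2) = θ ^ (2 * n) * x ^ 2 := by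
      rw [← pow_mul, div_pow, pow_add]
      field_simp
    have h7 : θ ^ (2 * n + 1 + 1) ≤ θ ^ (2 * n) * x ^ 2 := by
      rw [show 2 * n + 1 + 1 = 2 * n + 2 by ring, pow_add]
      exact mul_le_mul_of_nonneg_left (pow_le_pow_left₀ hθ0 hx1.le 2) (by positivity)
    have h8 : 0 ≤ ((θ / x) ^ 2) ^ n * (rkMid ops P n : ℝ) := by positivity
    linarith
  tfae_finish

end Pool.Agent.V5helper84.SL
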