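import Pool.Agent.V5helper84.SL.Main2

/-!
# The zero-one law for the signatures: the rate of growth and the proportion of negative squares
-/

open CategoryTheory AlgebraicGeometry Filter Topology

set_option autoImplicit false

universe u v

namespace Pool.Agent.V5helper84.SL

open Pool.Agent.H914 Pool.Agent.H914.VarClass Pool.Agent.H914.VarClass.Obj
  Pool.Agent.H914.WeilCohomology Pool.Agent.H281R3.HT Pool.Agent.W552 Pool.Agent.W539.Ker
  Pool.Agent.W534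

variable {k : Type u} [Field k] {𝒱 : VarClass k} {ops : CycleOps 𝒱}
  {W : WeilCohomology.{u, v} ops} {P Q : Polarized 𝒱}

/-- The ratios of a bounded log-convex sequence converge to their supremum. -/
lemma lc_limit {t : ℕ → ℝ} (h0 : ∀ n, 0 < t n) (hc : ∀ n, t (n + 1) * t (n + 1) ≤ t n * t (n + 2))
    {B : ℝ} (hB : ∀ n, t (n + 1) ≤ B * t n) :
    ∃ Λ : ℝ, 0 < Λ ∧ Λ ≤ B ∧ Tendsto (fun n => t (n + 1) / t n) atTop (𝓝 Λ) ∧
      (∀ n, t (n + 1) ≤ Λ * t n) ∧ ∀ θ, θ < Λ → ∃ n, θ * t n < t (n + 1) := by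
  have hmono : Monotone (fun n => t (n + 1) / t n) := by
    apply monotone_nat_of_le_succ
    intro n
    rw [div_le_div_iff₀ (h0 n) (h0 (n + 1))]
    have := hc n
    linarith [mul_comm (t n) (t (n + 2)), mul_comm (t (n + 1 + 1)) (t n)]
  have hbdd : BddAbove (Set.range (fun n => t (n + 1) / t n)) := by
    refine ⟨B, ?_⟩
    rintro _ ⟨n, rfl⟩
    change t (n + 1) / t n ≤ B
    rw [div_le_iff₀ (h0 n)]
    exact hB n
  have ht := tendsto_atTop_ciSup hmono hbdd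
  have hle : ∀ n, t (n + 1) / t n ≤ ⨆ n, t (n + 1) / t n := fun n => le_ciSup hbdd n
  refine ⟨⨆ n, t (n + 1) / t n, (div_pos (h0 1) (h0 0)).trans_le (hle 0), ciSup_le fun n => ?_, ht,
    fun n => ?_, fun θ hθ => ?_⟩
  · change t (n + 1) / t n ≤ B
    rw [div_le_iff₀ (h0 n)]
    exact hB n
  · rw [← div_le_iff₀ (h0 n)]
    exact hle n
  · obtain ⟨n, hn⟩ := exists_lt_of_lt_ciSup hθ
    exact ⟨n, (lt_div_iff₀ (h0 n)).1 hn⟩

/-- **The rate of growth of the signatures.** -/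
theorem rate (hPAIRS : S_PAIRS.{u, v}) (hD : P.X.IsCyc 1 P.D) (hHL : HardLefschetz W P.X P.D)
    (hB : LefschetzB W P.X P.D)
    (hpos : 0 < P.X.V.degCycle (divPow ops P.D P.X.dim P.X.V.fundCycle)) :
    ∃ Λ : ℝ, 0 < Λ ∧
      Tendsto (fun n => (sgMid W P (n + 1) : ℝ) / (sgMid W P n : ℝ)) atTop (𝓝 Λ) ∧
      (∀ n, (sgMid W P (n + 1) : ℝ) ≤ Λ * (sgMid W P n : ℝ)) ∧
      (∀ m, Λ ^ (m + 1) ≤ ((Module.finrank W.K (W.H P.X) ^ (m + 1) -
        2 * pairsNo W (ppw ops P m).X (ppw ops P m).D : ℕ) : ℝ) ^ 2) ∧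
      (Λ = (Module.finrank W.K (W.H P.X) : ℝ) ^ 2 ↔
        ∀ n, HodgeNum W (ppw ops P n).X (ppw ops P n).D) := by
  obtain ⟨f, F⟩ := exists_fm hD hHL hB hpos
  have h0 : ∀ n, (0 : ℝ) < (sgMid W P n : ℝ) := fun n => by
    exact_mod_cast sgMid_pos V5helper98.SL.t_ISO hD hHL hB F n
  have hc : ∀ n, (sgMid W P (n + 1) : ℝ) * (sgMid W P (n + 1) : ℝ) ≤
      (sgMid W P n : ℝ) * (sgMid W P (n + 2) : ℝ) := fun n => by
    exact_mod_cast sgMid_sq_le V5helper98.SL.t_ISO hD hHL hB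
      (sgMid_pos V5helper98.SL.t_ISO hD hHL hB F n)
  have hr : ∀ m n, (sgMid W P (n + 1) : ℝ) ^ (m + 1) ≤
      ((Module.finrank W.K (W.H P.X) ^ (m + 1) -
        2 * pairsNo W (ppw ops P m).X (ppw ops P m).D : ℕ) : ℝ) ^ 2 *
          (sgMid W P n : ℝ) ^ (m + 1) := fun m n => by
    exact_mod_cast ratio_le hPAIRS hD hHL hB F m n
  have hb : ∀ n, (sgMid W P (n + 1) : ℝ) ≤
      (Module.finrank W.K (W.H P.X) : ℝ) ^ 2 * (sgMid W P n : ℝ) := by
    intro n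
    have h1 := hr 0 n
    rw [zero_add, pow_one, pow_one, pow_one] at h1
    refine h1.trans (mul_le_mul_of_nonneg_right ?_ (h0 n).le)
    exact pow_le_pow_left₀ (Nat.cast_nonneg _) (by exact_mod_cast Nat.sub_le _ _) 2
  obtain ⟨Λ, hΛ0, hΛB, hΛ1, hΛ2, hΛ3⟩ := lc_limit h0 hc hb
  refine ⟨Λ, hΛ0, hΛ1, hΛ2, fun m => ?_, ?_⟩
  · refine le_of_tendsto (hΛ1.pow (m + 1)) (Eventually.of_forall fun n => ?_)
    rw [div_pow, div_le_iff₀ (pow_pos (h0 n) _)]
    exact hr m n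
  · have hT := law2 hPAIRS hD hHL hB hpos
    have h13 : (∀ n, HodgeNum W (ppw ops P n).X (ppw ops P n).D) ↔
        ∀ θ : ℝ, 0 ≤ θ → θ < (Module.finrank W.K (W.H P.X) : ℝ) ^ 2 →
          ∃ n, θ * (sgMid W P n : ℝ) < (sgMid W P (n + 1) : ℝ) := hT.out 0 2
    rw [h13]
    constructor
    · rintro rfl θ _ hθ
      exact hΛ3 θ hθ
    · intro h
      by_contra hne
      have hlt : Λ < (Module.finrank W.K (W.H P.X) : ℝ) ^ 2 := lt_of_le_of_ne hΛB hne
      obtain ⟨n, hn⟩ := h Λ hΛ0.le hlt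
      linarith [hΛ2 n]

/-- The vanishing of the number of negative squares. -/
lemma negMid_eq_zero_iff (hD : P.X.IsCyc 1 P.D) {f : Module.End W.K (W.H P.X)}
    (F : Fm W P f) (n : ℕ) : negMid W P n = 0 ↔
      HodgeNum W (ppw ops P (2 * n + 1)).X (ppw ops P (2 * n + 1)).D := by
  constructor
  · intro h
    by_contra hn
    obtain ⟨i, hi, z, hz, hneg⟩ := exists_neg (F.pow (2 * n + 1)).fr hn
    have h2 : 1 ≤ negSq W (ppw ops P (2 * n + 1)).X (ppw ops P (2 * n + 1)).D i := by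
      refine le_csSup (bddAbove_family W (ppw_cyc hD (2 * n + 1)) hi).2
        ⟨fun _ => z, fun _ => hz, fun _ => by linarith, ?_⟩
      intro i j hij
      exact absurd (Subsingleton.elim i j) hij
    have hdim := dim_even (ops := ops) P n
    have h3 : negSq W (ppw ops P (2 * n + 1)).X (ppw ops P (2 * n + 1)).D i ≤ negMid W P n :=
      Finset.single_le_sum (f := fun i => negSq W (ppw ops P (2 * n + 1)).X
        (ppw ops P (2 * n + 1)).D i) (fun _ _ => Nat.zero_le _)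
        (Finset.mem_range.2 (by omega))
    omega
  · intro h
    exact negUp_eq_zero (ppw_cyc hD _) h (dim_even P n).ge

/-- **The zero-one law: the proportion of the negative squares.** -/
theorem zero_one (hPAIRS : S_PAIRS.{u, v}) (hD : P.X.IsCyc 1 P.D)
    (hHL : HardLefschetz W P.X P.D) (hB : LefschetzB W P.X P.D)
    (hpos : 0 < P.X.V.degCycle (divPow ops P.D P.X.dim P.X.V.fundCycle)) :
    (∀ n, HodgeNum W (ppw ops P n).X (ppw ops P n).D) ∨
      ∃ δ : ℝ, 0 < δ ∧ δ < 1 ∧ ∃ M : ℕ, ∀ n ≥ M,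
        (1 / 2 - (1 - δ) ^ n) * (rkMid ops P n : ℝ) < (negMid W P n : ℝ) ∧
          (negMid W P n : ℝ) < 1 / 2 * (rkMid ops P n : ℝ) := by
  obtain ⟨f, F⟩ := exists_fm hD hHL hB hpos
  have hT := law2 hPAIRS hD hHL hB hpos
  have h14 : (∀ n, HodgeNum W (ppw ops P n).X (ppw ops P n).D) ↔
      ∀ δ : ℝ, 0 < δ → δ < 1 → ∀ M : ℕ, ∃ n ≥ M,
        (negMid W P n : ℝ) ≤ (1 / 2 - (1 - δ) ^ n) * (rkMid ops P n : ℝ) := hT.out 0 3
  rw [h14]
  by_cases h : ∀ δ : ℝ, 0 < δ → δ < 1 → ∀ M : ℕ, ∃ n ≥ M,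
        (negMid W P n : ℝ) ≤ (1 / 2 - (1 - δ) ^ n) * (rkMid ops P n : ℝ)
  · exact Or.inl h
  · right
    push Not at h
    obtain ⟨δ, h1, h2, M, h3⟩ := h
    refine ⟨δ, h1, h2, M, fun n hn => ⟨h3 n hn, ?_⟩⟩
    have h4 : (0 : ℝ) < (sgMid W P n : ℝ) := by
      exact_mod_cast sgMid_pos V5helper98.SL.t_ISO hD hHL hB F n
    have h5 : (sgMid W P n : ℝ) = (rkMid ops P n : ℝ) - 2 * (negMid W P n : ℝ) := by
      rw [sgMid_eq hD hHL hB n]
      push_cast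
      rfl
    linarith

end Pool.Agent.V5helper84.SL
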