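import Pool.Agent.V5helper84.SL.Main3
import Pool.Agent.V5helper18.SL.PAIRS

/-!
# The zero-one law for the signatures: criteria with one power
-/

open CategoryTheory AlgebraicGeometry Filter Topology

set_option autoImplicit false

universe u v

namespace Pool.Agent.V5helper84.SL

open Pool.Agent.H914 Pool.Agent.H914.VarClass Pool.Agent.H914.VarClass.Obj
  Pool.Agent.H914.WeilCohomology Pool.Agent.H281R3.HT Pool.Agent.W552 Pool.Agent.W539.Ker
  Pool.Agent.W534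

variable {k : Type u} [Field k] {𝒱 : VarClass k} {ops : CycleOps 𝒱}
  {W : WeilCohomology.{u, v} ops} {P Q : Polarized 𝒱}

/-- **The criterion with one power.** -/
theorem single (hPAIRS : S_PAIRS.{u, v}) (hD : P.X.IsCyc 1 P.D) (hHL : HardLefschetz W P.X P.D)
    (hB : LefschetzB W P.X P.D)
    (hpos : 0 < P.X.V.degCycle (divPow ops P.D P.X.dim P.X.V.fundCycle)) (m n e : ℕ)
    (he : e ≤ (n + 1) * P.X.dim) (ε : ℝ) (hε : 0 < ε)
    (hlarge : ((n : ℝ) + 2) ^ (Module.finrank W.K (W.H P.X) ^ 2) *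
      (((Module.finrank W.K (W.H P.X) ^ (m + 1) - 2) ^ ((2 * n + 2) / (m + 1)) *
        Module.finrank W.K (W.H P.X) ^ ((2 * n + 2) % (m + 1)) : ℕ) : ℝ) <
      2 * ε * (W.betti (Pool.Agent.Y163.pw P.X n) e : ℝ) ^ 2)
    (hneg : (negMid W P n : ℝ) ≤ (1 / 2 - ε) * (rkMid ops P n : ℝ)) :
    HodgeNum W (ppw ops P m).X (ppw ops P m).D := by
  obtain ⟨f, F⟩ := exists_fm hD hHL hB hpos
  by_contra hn
  have h1 := one_le_pairsNo (F.pow m).fr (F.pow m).one hn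
  set b := Module.finrank W.K (W.H P.X) with hb
  have h2 := (le_abs_self _).trans
    (gap hPAIRS F m (2 * n + 1) (c := (n + 1) * P.X.dim) (dim_even P n).ge)
  rw [← hb] at h2
  have h3 : (sgMid W P n : ℝ) ≤ (((b ^ (m + 1) - 2) ^ ((2 * n + 2) / (m + 1)) *
        b ^ ((2 * n + 2) % (m + 1)) : ℕ) : ℝ) := by
    have h4 : (sgMid W P n : ℤ) ≤ (((b ^ (m + 1) - 2) ^ ((2 * n + 2) / (m + 1)) *
        b ^ ((2 * n + 2) % (m + 1)) : ℕ) : ℤ) := by
      refine h2.trans ?_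
      exact_mod_cast Nat.mul_le_mul_right _ (Nat.pow_le_pow_left (by omega) _)
    exact_mod_cast h4
  have h5 : (sgMid W P n : ℝ) = (rkMid ops P n : ℝ) - 2 * (negMid W P n : ℝ) := by
    rw [sgMid_eq hD hHL hB n]
    push_cast
    rfl
  have h6 : (W.betti (Pool.Agent.Y163.pw P.X n) e : ℝ) ^ 2 ≤
      ((n : ℝ) + 2) ^ (b ^ 2) * (rkMid ops P n : ℝ) := by
    exact_mod_cast rkMid_low hD hHL hB n he
  have h7 : 2 * ε * (rkMid ops P n : ℝ) ≤ (sgMid W P n : ℝ) := by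
    rw [h5]; linarith
  have h8 : (0 : ℝ) < ((n : ℝ) + 2) ^ (b ^ 2) := by positivity
  have h9 : 2 * ε * (W.betti (Pool.Agent.Y163.pw P.X n) e : ℝ) ^ 2 ≤
      ((n : ℝ) + 2) ^ (b ^ 2) * (sgMid W P n : ℝ) := by
    calc 2 * ε * (W.betti (Pool.Agent.Y163.pw P.X n) e : ℝ) ^ 2 ≤
          2 * ε * (((n : ℝ) + 2) ^ (b ^ 2) * (rkMid ops P n : ℝ)) :=
          mul_le_mul_of_nonneg_left h6 (by positivity)
      _ = ((n : ℝ) + 2) ^ (b ^ 2) * (2 * ε * (rkMid ops P n : ℝ)) := by ring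
      _ ≤ _ := mul_le_mul_of_nonneg_left h7 h8.le
  have h10 := mul_le_mul_of_nonneg_left h3 h8.le
  linarith

end Pool.Agent.V5helper84.SL
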