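import Pool.Agent.V5helper84.SL.Main4

/-!
# The conjecture of Hodge type for a class of varieties and the proportion of negative squares
-/

open CategoryTheory AlgebraicGeometry Filter Topology

set_option autoImplicit false

universe u v

namespace Pool.Agent.V5helper84.SL

open Pool.Agent.H914 Pool.Agent.H914.VarClass Pool.Agent.H914.VarClass.Obj
  Pool.Agent.H914.WeilCohomology Pool.Agent.H281R3.HT Pool.Agent.W552 Pool.Agent.W539.Ker
  Pool.Agent.W534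

variable {k : Type u} [Field k] {𝒱 : VarClass k} {ops : CycleOps 𝒱}
  {W : WeilCohomology.{u, v} ops} {P Q : Polarized 𝒱}

/-- The growth of the signatures from a weak bound for the number of the negative squares. -/
lemma sgGrowth_of_weak (hD : P.X.IsCyc 1 P.D) (hHL : HardLefschetz W P.X P.D)
    (hB : LefschetzB W P.X P.D)
    (hpos : 0 < P.X.V.degCycle (divPow ops P.D P.X.dim P.X.V.fundCycle))
    (h : ∀ δ : ℝ, 0 < δ → ∃ B : ℝ, ∀ n,
      B ≤ (Module.finrank W.K (W.H (ppw ops P (2 * n + 1)).X) : ℝ) →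
        (negMid W P n : ℝ) ≤ (1 / 2 -
          (Module.finrank W.K (W.H (ppw ops P (2 * n + 1)).X) : ℝ) ^ (-δ)) *
            (rkMid ops P n : ℝ)) : SgGrowth W P := by
  obtain ⟨f, F⟩ := exists_fm hD hHL hB hpos
  intro θ hθ0 hθ M
  set b := Module.finrank W.K (W.H P.X) with hb
  have h3 : ∀ n, (sgMid W P n : ℝ) = (rkMid ops P n : ℝ) - 2 * (negMid W P n : ℝ) := fun n => by
    rw [sgMid_eq hD hHL hB n]
    push_cast
    rfl
  have hfin : ∀ n, ∀ x : ℝ, x ≤ (sgMid W P n : ℝ) →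
      x ≤ |(sgUp W (ppw ops P (2 * n + 1)) ((n + 1) * P.X.dim) : ℝ)| :=
    fun n x hx => hx.trans (le_abs_self _)
  rcases Nat.lt_or_ge b 2 with hb2 | hb2
  · -- `b ≤ 1`
    refine ⟨2 * M + 1, by omega, (M + 1) * P.X.dim, (dim_even P M).ge, hfin M _ ?_⟩
    have h1 : (1 : ℝ) ≤ (sgMid W P M : ℝ) := by
      exact_mod_cast sgMid_pos V5helper98.SL.t_ISO hD hHL hB F M
    have h2 : θ ≤ 1 := hθ.le.trans (by exact_mod_cast (by omega : b ≤ 1))
    exact (pow_le_one₀ hθ0 h2).trans h1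
  rcases hθ0.eq_or_lt with hz | hpos'
  · refine ⟨M, le_rfl, 0, Nat.zero_le _, ?_⟩
    rw [← hz, zero_pow (Nat.succ_ne_zero _)]
    exact abs_nonneg _
  obtain ⟨x, hx1, hx2⟩ := exists_between hθ
  have hx0 : 0 < x := hθ0.trans_lt hx1
  have hbR : (1 : ℝ) < b := by exact_mod_cast (by omega : 1 < b)
  have hb0 : (0 : ℝ) < b := by linarith
  have hlog : 0 < Real.log b := Real.log_pos hbR
  have hlx : 0 < Real.log (x / θ) := Real.log_pos ((one_lt_div hpos').2 hx1)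
  set δ : ℝ := Real.log (x / θ) / Real.log b with hδ
  have hδ0 : 0 < δ := div_pos hlx hlog
  have hbδ : (b : ℝ) ^ (-δ) = θ / x := by
    rw [Real.rpow_neg hb0.le, Real.rpow_def_of_pos hb0, hδ, mul_div_cancel₀ _ hlog.ne',
      Real.exp_log (div_pos hx0 hpos'), inv_div]
  obtain ⟨B, hBB⟩ := h δ hδ0
  obtain ⟨N, hN⟩ := rkMid_growth hD hHL hB hx0 hx2
  obtain ⟨N', hN'⟩ := pow_unbounded_of_one_lt B hbR
  set n := max (max M N) N' with hn
  have hnM : M ≤ n := (le_max_left _ _).trans (le_max_left _ _)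
  have hnN : N ≤ n := (le_max_right _ _).trans (le_max_left _ _)
  have hnN' : N' ≤ n := le_max_right _ _
  have hbn : (Module.finrank W.K (W.H (ppw ops P (2 * n + 1)).X) : ℝ) = (b : ℝ) ^ (2 * n + 2) := by
    rw [finrank_ppw, ← hb]
    push_cast
    rfl
  have h4 : B ≤ (Module.finrank W.K (W.H (ppw ops P (2 * n + 1)).X) : ℝ) := by
    rw [hbn]
    exact hN'.le.trans (pow_le_pow_right₀ hbR.le (by omega))
  have h5 := hBB n h4
  have h6 : ((b : ℝ) ^ (2 * n + 2)) ^ (-δ) = (θ / x) ^ (2 * n + 2) := by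
    rw [← hbδ, ← Real.rpow_natCast, ← Real.rpow_mul hb0.le, ← Real.rpow_natCast,
      ← Real.rpow_mul hb0.le, mul_comm]
  rw [hbn, h6] at h5
  refine ⟨2 * n + 1, by omega, (n + 1) * P.X.dim, (dim_even P n).ge, hfin n _ ?_⟩
  rw [h3 n]
  have h7 := hN n hnN
  have h8 : (θ / x) ^ (2 * n + 2) * x ^ (2 * n + 2) ≤
      (θ / x) ^ (2 * n + 2) * (rkMid ops P n : ℝ) := mul_le_mul_of_nonneg_left h7 (by positivity)
  have h9 : (θ / x) ^ (2 * n + 2) * x ^ (2 * n + 2) = θ ^ (2 * n + 1 + 1) := by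
    rw [← mul_pow, div_mul_cancel₀ _ hx0.ne']
  have h10 : 0 ≤ (θ / x) ^ (2 * n + 2) * (rkMid ops P n : ℝ) := by positivity
  rw [h9] at h8
  linarith

/-- **The conjecture of Hodge type for a class of varieties.** -/
theorem class_law (hPAIRS : S_PAIRS.{u, v}) (G : Set (Polarized 𝒱))
    (hG : ∀ P ∈ G, P.X.IsCyc 1 P.D ∧ HardLefschetz W P.X P.D ∧ LefschetzB W P.X P.D ∧
      0 < P.X.V.degCycle (divPow ops P.D P.X.dim P.X.V.fundCycle))
    (hpow : ∀ P ∈ G, ∀ n, ppw ops P n ∈ G) :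
    (∀ P ∈ G, HodgeNum W P.X P.D) ↔
      ∀ δ : ℝ, 0 < δ → ∃ B : ℝ, ∀ P ∈ G, B ≤ (Module.finrank W.K (W.H P.X) : ℝ) →
        ∀ c, P.X.dim = 2 * c →
          (negUp W P.X P.D c : ℝ) ≤ (1 / 2 - (Module.finrank W.K (W.H P.X) : ℝ) ^ (-δ)) *
            (numRank ops P.X c : ℝ) := by
  constructor
  · intro h δ hδ
    refine ⟨(2 : ℝ) ^ (δ⁻¹), fun P hP hb c hc => ?_⟩
    rw [negUp_eq_zero (hG P hP).1 (h P hP) hc.ge, Nat.cast_zero]
    refine mul_nonneg ?_ (Nat.cast_nonneg _)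
    have h1 : ((2 : ℝ) ^ (δ⁻¹)) ^ δ ≤ (Module.finrank W.K (W.H P.X) : ℝ) ^ δ :=
      Real.rpow_le_rpow (by positivity) hb hδ.le
    rw [← Real.rpow_mul (by norm_num), inv_mul_cancel₀ hδ.ne', Real.rpow_one] at h1
    rw [Real.rpow_neg (Nat.cast_nonneg _)]
    have h2 : ((Module.finrank W.K (W.H P.X) : ℝ) ^ δ)⁻¹ ≤ 2⁻¹ :=
      inv_anti₀ (by norm_num) h1
    linarith
  · intro h P hP
    obtain ⟨hD, hHL, hB, hpos⟩ := hG P hP
    obtain ⟨f, F⟩ := exists_fm hD hHL hB hpos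
    have h1 : SgGrowth W P := sgGrowth_of_weak hD hHL hB hpos fun δ hδ => by
      obtain ⟨B, hBB⟩ := h δ hδ
      exact ⟨B, fun n hn => hBB _ (hpow P hP (2 * n + 1)) hn _ (dim_even P n)⟩
    exact hodge_of_growth hPAIRS F h1 0

end Pool.Agent.V5helper84.SL
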