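import Pool.Agent.V5helper84.SL.Main5

/-!
# The conjecture of Hodge type for a class of varieties and the trace forms of correspondences
-/

open CategoryTheory AlgebraicGeometry Filter Topology

set_option autoImplicit false

universe u v

namespace Pool.Agent.V5helper84.SL

open Pool.Agent.H914 Pool.Agent.H914.VarClass Pool.Agent.H914.VarClass.Obj
  Pool.Agent.H914.WeilCohomology Pool.Agent.H281R3.HT Pool.Agent.W552 Pool.Agent.W539.Ker
  Pool.Agent.W534

variable {k : Type u} [Field k] {𝒱 : VarClass k} {ops : CycleOps 𝒱}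
  {W : WeilCohomology.{u, v} ops} {P Q : Polarized 𝒱}

lemma negUp_iso (hISO : S_ISO.{u, v}) (hP : P.X.IsCyc 1 P.D) (hQ : Q.X.IsCyc 1 Q.D)
    (h : PIso W P Q) {c : ℕ} (hc : 2 * c ≤ P.X.dim) :
    negUp W P.X P.D c = negUp W Q.X Q.D c ∧ posUp W P.X P.D c = posUp W Q.X Q.D c := by
  rw [negUp, negUp, posUp, posUp]
  refine ⟨Finset.sum_congr rfl fun i hi => ?_, Finset.sum_congr rfl fun i hi => ?_⟩
  · rw [Finset.mem_range] at hi
    exact (posSq_iso hISO hP hQ h (n := i) (by omega)).2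
  · rw [Finset.mem_range] at hi
    exact (posSq_iso hISO hP hQ h (n := i) (by omega)).1

/-- The middle codimension of the square of a power. -/
lemma mid_iso (hD : P.X.IsCyc 1 P.D) (hHL : HardLefschetz W P.X P.D)
    (hB : LefschetzB W P.X P.D) (n : ℕ) :
    negMid W (ppw ops P n) 0 = negMid W P n ∧ rkMid ops (ppw ops P n) 0 = rkMid ops P n := by
  obtain ⟨N, hN, hiso, -⟩ := (V5helper98.SL.t_ISO k _ 𝒱 ops W).2.1 P hD n 1
  have hN' : N = 2 * n + 1 := by omega
  subst hN'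
  have hdim : (0 + 1) * (ppw ops P n).X.dim = (n + 1) * P.X.dim := by
    rw [dim_ppw, zero_add, one_mul]
  have hc : 2 * ((n + 1) * P.X.dim) ≤ (ppw ops (ppw ops P n) 1).X.dim := by
    rw [hiso.1]; exact (dim_even P n).ge
  obtain ⟨h1, h2⟩ := negUp_iso V5helper98.SL.t_ISO (ppw_cyc (ppw_cyc hD n) 1)
    (ppw_cyc hD (2 * n + 1)) hiso hc
  have hr := rank_eq (ppw_cyc hD n) (ppw_hard hD hHL n) (ppw_B hD hHL hB n) 1 hc
  have hr' := rank_eq hD hHL hB (2 * n + 1) (c := (n + 1) * P.X.dim) (dim_even P n).ge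
  constructor
  · rw [negMid, negMid, hdim]
    exact h1
  · rw [rkMid, rkMid, hdim]
    change numRank ops (ppw ops (ppw ops P n) 1).X _ = _
    rw [hr, hr', h1, h2]

/-- **The conjecture of Hodge type for a class of varieties**: it is equivalent to a bound for the
number of the negative squares of the forms on the correspondences of degree zero. -/
theorem square_law (hPAIRS : S_PAIRS.{u, v}) (G : Set (Polarized 𝒱))
    (hG : ∀ P ∈ G, P.X.IsCyc 1 P.D ∧ HardLefschetz W P.X P.D ∧ LefschetzB W P.X P.D ∧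
      0 < P.X.V.degCycle (divPow ops P.D P.X.dim P.X.V.fundCycle))
    (hpow : ∀ P ∈ G, ∀ n, ppw ops P n ∈ G) :
    (∀ P ∈ G, HodgeNum W P.X P.D) ↔
      ∀ δ : ℝ, 0 < δ → ∃ B : ℝ, ∀ P ∈ G, B ≤ (Module.finrank W.K (W.H P.X) : ℝ) →
        (negMid W P 0 : ℝ) ≤ (1 / 2 - (Module.finrank W.K (W.H P.X) : ℝ) ^ (-δ)) *
          (rkMid ops P 0 : ℝ) := by
  constructor
  · intro h δ hδ
    refine ⟨(2 : ℝ) ^ (δ⁻¹), fun P hP hb => ?_⟩
    have h0 : negMid W P 0 = 0 :=
      negUp_eq_zero (ppw_cyc (hG P hP).1 _) (h _ (hpow P hP _)) (dim_even P 0).ge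
    rw [h0, Nat.cast_zero]
    refine mul_nonneg ?_ (Nat.cast_nonneg _)
    have h1 : ((2 : ℝ) ^ (δ⁻¹)) ^ δ ≤ (Module.finrank W.K (W.H P.X) : ℝ) ^ δ :=
      Real.rpow_le_rpow (by positivity) hb hδ.le
    rw [← Real.rpow_mul (by norm_num), inv_mul_cancel₀ hδ.ne', Real.rpow_one] at h1
    rw [Real.rpow_neg (Nat.cast_nonneg _)]
    have h2 : ((Module.finrank W.K (W.H P.X) : ℝ) ^ δ)⁻¹ ≤ 2⁻¹ :=
      inv_anti₀ (by norm_num) h1
    linarith
  · intro h P hP
    obtain ⟨hD, hHL, hB, hpos⟩ := hG P hP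
    obtain ⟨f, F⟩ := exists_fm hD hHL hB hpos
    have h1 : SgGrowth W P := sgGrowth_of_weak hD hHL hB hpos fun δ hδ => by
      obtain ⟨B, hBB⟩ := h (2 * δ) (by positivity)
      refine ⟨(max B 0) ^ 2, fun n hn => ?_⟩
      set b := Module.finrank W.K (W.H P.X) with hb
      have e1 : (Module.finrank W.K (W.H (ppw ops P (2 * n + 1)).X) : ℝ) =
          ((b : ℝ) ^ (n + 1)) ^ 2 := by
        rw [finrank_ppw, ← hb]
        push_cast
        ring
      have e2 : (Module.finrank W.K (W.H (ppw ops P n).X) : ℝ) = (b : ℝ) ^ (n + 1) := by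
        rw [finrank_ppw, ← hb]
        push_cast
        rfl
      have hbn : (0 : ℝ) ≤ (b : ℝ) ^ (n + 1) := by positivity
      have h3 : B ≤ (Module.finrank W.K (W.H (ppw ops P n).X) : ℝ) := by
        rw [e2]
        rw [e1] at hn
        have h4 : max B 0 ≤ (b : ℝ) ^ (n + 1) :=
          (pow_le_pow_iff_left₀ (le_max_right _ _) hbn two_ne_zero).1 hn
        exact (le_max_left _ _).trans h4
      have h5 := hBB _ (hpow P hP n) h3
      obtain ⟨e3, e4⟩ := mid_iso hD hHL hB n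
      rw [e3, e4, e2] at h5
      rw [e1]
      have e5 : (((b : ℝ) ^ (n + 1)) ^ 2) ^ (-δ) = ((b : ℝ) ^ (n + 1)) ^ (-(2 * δ)) := by
        rw [← Real.rpow_natCast (((b : ℝ) ^ (n + 1))) 2, ← Real.rpow_mul hbn]
        congr 1
        push_cast
        ring
      rw [e5]
      exact h5
    exact hodge_of_growth hPAIRS F h1 0

end Pool.Agent.V5helper84.SL
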