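import Pool.Agent.V5helper84.SL.Main6

/-!
# The varieties which satisfy the Lefschetz standard conjecture
-/

open CategoryTheory AlgebraicGeometry Filter Topology

set_option autoImplicit false

universe u v

namespace Pool.Agent.V5helper84.SL

open Pool.Agent.H914 Pool.Agent.H914.VarClass Pool.Agent.H914.VarClass.Obj
  Pool.Agent.H914.WeilCohomology Pool.Agent.H281R3.HT Pool.Agent.W552 Pool.Agent.W539.Ker
  Pool.Agent.W534

variable {k : Type u} [Field k] {𝒱 : VarClass k} {ops : CycleOps 𝒱}
  {W : WeilCohomology.{u, v} ops} {P Q : Polarized 𝒱}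

/-- The polarized variety `P = (X, D)` is *good*: `D` is a divisor with `D ^ d > 0`, `d = dim X`, hard
Lefschetz holds for `D` and the Lefschetz standard conjecture (the operator `Λ` of `D` is algebraic)
holds for `X`. -/
structure Good (W : WeilCohomology.{u, v} ops) (P : Polarized 𝒱) : Prop where
  cyc : P.X.IsCyc 1 P.D
  hard : HardLefschetz W P.X P.D
  lef : LefschetzB W P.X P.D
  pos : 0 < P.X.V.degCycle (divPow ops P.D P.X.dim P.X.V.fundCycle)

/-- The converse of `one_of_pos`. -/
lemma pos_of_one {X : 𝒱.Obj} {D : X.Cycles} {f : Module.End W.K (W.H X)} (F : Fr W X D f)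
    (h : One W X D f) : 0 < X.V.degCycle (divPow ops D X.dim X.V.fundCycle) := by
  have hfc : X.IsCyc 0 X.V.fundCycle := X.V.fundCycle_mem
  have hcl : W.cl X X.V.fundCycle = 1 := W.cl_fund X
  have hop : Primitive W X D 0 X.V.fundCycle := by
    refine ⟨hfc, ?_⟩
    have h2 := pow_L_mem (mulLeft_isHom F.hD) (W.cl_mem hfc) (X.dim - 2 * 0 + 1)
    rw [W_hbd _ (by omega)] at h2
    rw [cl_divPow]
    exact (Submodule.mem_bot _).1 h2
  have h00 := bf_same F (Nat.zero_le _) hop hop (j := 0) (Nat.zero_le _)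
  rw [pow_zero, Module.End.one_apply, hcl] at h00
  obtain ⟨q, hq, hq'⟩ := h
  have h1 : pairing ops X D 0 X.V.fundCycle X.V.fundCycle =
      X.V.degCycle (divPow ops D X.dim X.V.fundCycle) := by
    have h2 := pairing_cast (W := W) F.hD (Nat.zero_le _) hfc hfc
    rw [hcl, one_mul, pow_zero, one_mul, mul_zero, Nat.sub_zero, ← hcl, ← cl_divPow,
      W.tr_cl (by have := divPow_mem (ops := ops) F.hD X.dim hfc; rwa [zero_add] at this)] at h2
    exact_mod_cast h2
  rw [hq', h1] at h00
  have h3 : q = _ := Rat.cast_injective h00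
  rw [h3] at hq
  exact pos_of_mul_pos_right hq (by positivity)

lemma Good.fm (h : Good W P) : ∃ f, Fm W P f := exists_fm h.cyc h.hard h.lef h.pos

lemma Good.ppw (h : Good W P) (n : ℕ) : Good W (ppw ops P n) := by
  obtain ⟨f, F⟩ := h.fm
  exact ⟨ppw_cyc h.cyc n, ppw_hard h.cyc h.hard n, ppw_B h.cyc h.hard h.lef n,
    pos_of_one (F.pow n).fr (F.pow n).one⟩

end Pool.Agent.V5helper84.SL
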