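import Pool.Agent.V5helper84.SL.Two

/-!
# If the conjecture of Hodge type fails there are two classes of opposite signs
-/

open CategoryTheory AlgebraicGeometry

set_option autoImplicit false

universe u v

namespace Pool.Agent.V5helper84.SL

open Pool.Agent.H914 Pool.Agent.H914.VarClass Pool.Agent.H914.VarClass.Obj
  Pool.Agent.H914.WeilCohomology Pool.Agent.H281R3.HT Pool.Agent.W552 Pool.Agent.W539.Ker

variable {k : Type u} [Field k] {𝒱 : VarClass k} {ops : CycleOps 𝒱}
  {W : WeilCohomology.{u, v} ops} {X Y : 𝒱.Obj} {D : X.Cycles} {f : Module.End W.K (W.H X)}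

/-- The square of the class `1` is positive. -/
def One (W : WeilCohomology.{u, v} ops) (X : 𝒱.Obj) (D : X.Cycles)
    (f : Module.End W.K (W.H X)) : Prop :=
  ∃ q : ℚ, 0 < q ∧ bf W X D f 1 1 = (q : W.K)

lemma One.prod {E : Y.Cycles} {g : Module.End W.K (W.H Y)} (F : Fr W X D f) (G : Fr W Y E g)
    (h : One W X D f) (h' : One W Y E g) : One W (X.prod Y)
      (ops.pull (fst X Y) D + ops.pull (snd X Y) E) (extSum W f g) := by
  obtain ⟨q, hq, hq'⟩ := h
  obtain ⟨r, hr, hr'⟩ := h'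
  refine ⟨q * r, mul_pos hq hr, ?_⟩
  have h1 := F.bf_ext G 1 1 1 1
  rw [H281R3.HT.ext, map_one, map_one, mul_one] at h1
  rw [h1, hq', hr', Rat.cast_mul]

/-- A primitive cycle with negative square. -/
lemma exists_neg (F : Fr W X D f) (hn : ¬ HodgeNum W X D) :
    ∃ n, 2 * n ≤ X.dim ∧ ∃ z, Primitive W X D n z ∧ pairing ops X D n z z < 0 := by
  unfold HodgeNum at hn
  push Not at hn
  obtain ⟨n, hn, z, hz, hnt, hle⟩ := hn
  refine ⟨n, hn, ?_⟩
  rcases hle.lt_or_eq with hlt | heq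
  · exact ⟨z, hz, hlt⟩
  unfold NumTrivial at hnt
  push Not at hnt
  obtain ⟨w, hw, hne⟩ := hnt
  set L := LinearMap.mulLeft W.K (W.cl X D) with hL
  -- the primitive component of `w`
  obtain ⟨w', hw', hww⟩ := F.lefschetzA n hn w hw
  obtain ⟨u, hu, hs⟩ := (ap_alg F).decomp_low (mulLeft_isHom F.hD) W_hbd n hn (W.cl X w')
    ⟨w', hw', rfl⟩
  rw [← hL] at hu hs
  obtain ⟨⟨y, hy, hy'⟩, hyp⟩ := hu 0 (Nat.zero_le _)
  rw [Nat.sub_zero] at hy hyp
  have hyprim : Primitive W X D n y := ⟨hy, by rw [cl_divPow, ← hL, hy']; exact hyp⟩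
  have hzL : (L ^ (X.dim - 2 * n + 1)) (W.cl X z) = 0 := by
    rw [hL, ← cl_divPow]; exact hz.2
  have key : ((X.V.degCycle (ops.mul z w) : ℚ) : W.K) =
      W.tr X (W.cl X z * ((L ^ (X.dim - 2 * n)) (W.cl X y))) := by
    have hmem := ops.mul_mem hz.1 hw
    rw [show n + (X.dim - n) = X.dim by omega] at hmem
    rw [← W.tr_cl hmem, W.cl_mul, ← hww, cl_divPow, ← hL, hs, map_sum, Finset.mul_sum, map_sum,
      Finset.sum_eq_single 0]
    · rw [pow_zero, Module.End.one_apply, ← hy']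
    · intro b hb hb0
      rw [← Module.End.mul_apply, ← pow_add, ← L_pow_self F.hD, ← hL,
        L_pow_gt (n := X.dim) (i := 2 * n) hzL (by omega), zero_mul, map_zero]
    · intro h0; exact absurd (Finset.mem_range.2 (Nat.succ_pos _)) h0
  have hpair := pairing_cast (W := W) F.hD hn hz.1 hy
  rw [← hL, ← key] at hpair
  have hpne : pairing ops X D n z y ≠ 0 := by
    intro h0
    rw [h0, Rat.cast_zero] at hpair
    rcases mul_eq_zero.1 hpair.symm with h1 | h1
    · exact pow_ne_zero n (neg_ne_zero.2 one_ne_zero) h1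
    · exact hne (by exact_mod_cast h1)
  set B := BP W F.hD n hn with hB
  let z' : PM W X D n := ⟨z, hz⟩
  let y' : PM W X D n := ⟨y, hyprim⟩
  have e1 : B z' z' = 0 := heq
  have e2 : B z' y' ≠ 0 := hpne
  have e3 : B y' z' = B z' y' := BP_symm F.hD hn y' z'
  set t : ℚ := -(B y' y' + 1) / (2 * B z' y') with ht
  refine ⟨((t • z' + y' : PM W X D n) : X.Cycles), (t • z' + y').2, ?_⟩
  change B (t • z' + y') (t • z' + y') < 0
  have e4 : B (t • z' + y') (t • z' + y') = -1 := by
    simp only [map_add, map_smul, LinearMap.add_apply, LinearMap.smul_apply, smul_eq_mul, e1, e3]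
    rw [ht]
    field_simp
    ring
  rw [e4]
  norm_num

/-- **If the conjecture of Hodge type fails there is a pair.** -/
theorem neg_pair (F : Fr W X D f) (S : Sy W X D f) (h1 : One W X D f) (hn : ¬ HodgeNum W X D) :
    ∃ (P T : Module.End W.K (W.H X)) (κ : ℚ), Pair W X D f P T κ ∧
      Module.finrank W.K (LinearMap.range (1 - P)) + 2 ≤ Module.finrank W.K (W.H X) := by
  obtain ⟨n, hn, z, hz, hneg⟩ := exists_neg F hn
  obtain ⟨q, hq, hqq⟩ := h1
  set L := LinearMap.mulLeft W.K (W.cl X D) with hL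
  obtain ⟨o, ho, ho'⟩ := alg_one (W := W) (X := X)
  have hop : Primitive W X D 0 o := by
    refine ⟨ho, ?_⟩
    have h2 := pow_L_mem (mulLeft_isHom F.hD) (W.cl_mem ho) (X.dim - 2 * 0 + 1)
    rw [W_hbd _ (by omega)] at h2
    rw [cl_divPow]
    exact (Submodule.mem_bot _).1 h2
  have h00 := bf_same F (Nat.zero_le _) hop hop (j := 0) (Nat.zero_le _)
  rw [pow_zero, Module.End.one_apply, ho', hqq] at h00
  have hpo : 0 < pairing ops X D 0 o o := by
    have h3 : q = (Nat.factorial 0 : ℚ) * ((X.dim - 2 * 0 - 0).factorial : ℚ)⁻¹ *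
        pairing ops X D 0 o o := by exact_mod_cast h00
    have h4 : (0 : ℚ) < (Nat.factorial 0 : ℚ) * ((X.dim - 2 * 0 - 0).factorial : ℚ)⁻¹ := by
      positivity
    rw [h3] at hq
    exact (mul_pos_iff_of_pos_left h4).1 hq
  -- the positive class
  have hzz := bf_same F (Nat.zero_le _) hop hop (j := n) (by omega)
  rw [ho', ← hL] at hzz
  set c : ℚ := n.factorial * ((X.dim - 2 * 0 - n).factorial : ℚ)⁻¹ * pairing ops X D 0 o o with hc
  have hc0 : 0 < c := by
    have : (0 : ℚ) < n.factorial * ((X.dim - 2 * 0 - n).factorial : ℚ)⁻¹ := by positivity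
    exact mul_pos this hpo
  have hA1 : (L ^ n) (1 : W.H X) ∈ algClasses W X n := by
    have := (ap_alg F).map_L_pow n (alg_one (W := W) (X := X))
    rwa [zero_add] at this
  -- the negative class
  have hww := bf_same F hn hz hz (j := 0) (Nat.zero_le _)
  rw [pow_zero, Module.End.one_apply] at hww
  set d₀ : ℚ := (Nat.factorial 0 : ℚ) * ((X.dim - 2 * n - 0).factorial : ℚ)⁻¹ *
    pairing ops X D n z z with hd₀
  have hd0 : d₀ < 0 := by
    have : (0 : ℚ) < (Nat.factorial 0 : ℚ) * ((X.dim - 2 * n - 0).factorial : ℚ)⁻¹ := by positivity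
    exact mul_neg_of_pos_of_neg this hneg
  have hA2 : W.cl X z ∈ algClasses W X n := ⟨z, hz.1, rfl⟩
  obtain ⟨e, he⟩ := F.bf_rat (AS.of hA2) (AS.of hA1)
  have he' : bf W X D f ((L ^ n) (1 : W.H X)) (W.cl X z) = (e : W.K) := by
    rw [S, par_AS (AS.of hA2), he]
  have hc0K : (c : W.K) ≠ 0 := by exact_mod_cast hc0.ne'
  set m : ℤ := 2 * (n : ℤ) - X.dim with hm
  have hwt : ∀ {a : W.H X}, a ∈ algClasses W X n →
      wt (W.isInternal X) X.dim a = (m : W.K) • a := by
    intro a ha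
    rw [Fr.wt_gr (alg_gr ha), hm]
    push_cast
    rfl
  set w : W.H X := W.cl X z + ((-(e / c) : ℚ) : W.K) • (L ^ n) (1 : W.H X) with hw
  have hwA : w ∈ algClasses W X n := alg_add hA2 (alg_smul _ hA1)
  refine exists_pair F S (AS.of hA1) (AS.of hwA) (hwt hA1) (hwt hwA) hc0
    (c' := d₀ - e * e / c) ?_ hzz ?_ ?_
  · have : 0 ≤ e * e / c := div_nonneg (mul_self_nonneg e) hc0.le
    linarith
  · rw [hw]
    simp only [map_add, map_smul, LinearMap.add_apply, LinearMap.smul_apply, smul_eq_mul, hww,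
      hzz, he, he']
    push_cast
    field_simp
    ring
  · rw [hw]
    simp only [map_add, map_smul, smul_eq_mul, hzz, he']
    push_cast
    field_simp
    ring

end Pool.Agent.V5helper84.SL
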