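import Pool.Agent.V5helper84.SL.Neg
import Pool.Agent.Y163.Pow
import Pool.Agent.V5helper86.GB.Pw

/-!
# The powers of a polarized variety
-/

open CategoryTheory AlgebraicGeometry

set_option autoImplicit false

universe u v

namespace Pool.Agent.V5helper84.SL

open Pool.Agent.H914 Pool.Agent.H914.VarClass Pool.Agent.H914.VarClass.Obj
  Pool.Agent.H914.WeilCohomology Pool.Agent.H281R3.HT Pool.Agent.W552 Pool.Agent.W539.Ker

variable {k : Type u} [Field k] {𝒱 : VarClass k} {ops : CycleOps 𝒱}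
  {W : WeilCohomology.{u, v} ops} {P Q : Polarized 𝒱}

/-- A polarized variety with its operators and with a positive class `1`. -/
structure Fm (W : WeilCohomology.{u, v} ops) (P : Polarized 𝒱)
    (f : Module.End W.K (W.H P.X)) : Prop where
  fr : Fr W P.X P.D f
  sy : Sy W P.X P.D f
  one : One W P.X P.D f

lemma Fm.prod {f : Module.End W.K (W.H P.X)} {g : Module.End W.K (W.H Q.X)}
    (F : Fm W P f) (G : Fm W Q g) :
    Fm W (P.prod ops Q) (extSum W (Y := P.X) (Z := Q.X) f g) where
  fr := F.fr.prod G.fr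
  sy := F.sy.prod F.fr G.fr G.sy
  one := One.prod F.fr G.fr F.one G.one

/-- The lowering operators of the powers. -/
noncomputable def fpw (P : Polarized 𝒱) (f : Module.End W.K (W.H P.X)) :
    ∀ n : ℕ, Module.End W.K (W.H (ppw ops P n).X)
  | 0 => f
  | n + 1 => extSum W (Y := P.X) (Z := (ppw ops P n).X) f (fpw P f n)

lemma Fm.pow {f : Module.End W.K (W.H P.X)} (F : Fm W P f) :
    ∀ n : ℕ, Fm W (ppw ops P n) (fpw P f n)
  | 0 => F
  | n + 1 => Fm.prod F (Fm.pow F n)

lemma chain_pow {f : Module.End W.K (W.H P.X)} (F : Fm W P f) {s : ℕ}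
    (h : HasChain W P.X P.D f s) :
    ∀ n : ℕ, HasChain W (ppw ops P n).X (ppw ops P n).D (fpw P f n) (s ^ (n + 1))
  | 0 => by rw [zero_add, pow_one]; exact h
  | n + 1 => by
    rw [pow_succ' s (n + 1)]
    exact HasChain.prod F.fr (F.pow n).fr h (chain_pow F h n)

lemma finrank_prod (W : WeilCohomology.{u, v} ops) (P Q : Polarized 𝒱) :
    Module.finrank W.K (W.H (P.prod ops Q).X) =
      Module.finrank W.K (W.H P.X) * Module.finrank W.K (W.H Q.X) := by
  have e := kappa W P.X Q.X
  rw [← Module.finrank_tensorProduct (R := W.K), e.finrank_eq]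
  rfl

lemma finrank_ppw (W : WeilCohomology.{u, v} ops) (P : Polarized 𝒱) (n : ℕ) :
    Module.finrank W.K (W.H (ppw ops P n).X) = Module.finrank W.K (W.H P.X) ^ (n + 1) := by
  induction n with
  | zero => rw [zero_add, pow_one]; rfl
  | succ n ih => rw [ppw, finrank_prod, ih, pow_succ' _ (n + 1)]

lemma dim_ppw (P : Polarized 𝒱) (n : ℕ) : (ppw ops P n).X.dim = (n + 1) * P.X.dim := by
  induction n with
  | zero => rw [zero_add, one_mul]; rfl
  | succ n ih =>
    rw [ppw]
    change P.X.dim + (ppw ops P n).X.dim = _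
    rw [ih]
    ring

lemma ppw_cyc (hD : P.X.IsCyc 1 P.D) (n : ℕ) : (ppw ops P n).X.IsCyc 1 (ppw ops P n).D := by
  induction n with
  | zero => exact hD
  | succ n ih => exact SmVar.IsCyc.add (ops.pull_mem _ hD) (ops.pull_mem _ ih)

lemma ppw_eq (P : Polarized 𝒱) (n : ℕ) :
    ppw ops P n = ⟨Pool.Agent.Y163.pw P.X n, Pool.Agent.V5helper86.GB.pwDiv ops P.D n⟩ := by
  induction n with
  | zero => rfl
  | succ n ih => rw [ppw, ih]; rfl

lemma ppw_hard (hD : P.X.IsCyc 1 P.D) (hHL : HardLefschetz W P.X P.D) (n : ℕ) :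
    HardLefschetz W (ppw ops P n).X (ppw ops P n).D := by
  rw [ppw_eq]
  exact Pool.Agent.V5helper86.GB.pw_hard hD hHL n

lemma ppw_B (hD : P.X.IsCyc 1 P.D) (hHL : HardLefschetz W P.X P.D)
    (hB : LefschetzB W P.X P.D) (n : ℕ) :
    LefschetzB W (ppw ops P n).X (ppw ops P n).D := by
  rw [ppw_eq]
  exact Pool.Agent.V5helper86.GB.pw_B hD hHL hB n

/-- The class `1` is positive when the self-intersection number of the divisor is positive. -/
lemma one_of_pos {X : 𝒱.Obj} {D : X.Cycles} {f : Module.End W.K (W.H X)} (F : Fr W X D f)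
    (h : 0 < X.V.degCycle (divPow ops D X.dim X.V.fundCycle)) : One W X D f := by
  have hfc : X.IsCyc 0 X.V.fundCycle := X.V.fundCycle_mem
  have hcl : W.cl X X.V.fundCycle = 1 := W.cl_fund X
  have hop : Primitive W X D 0 X.V.fundCycle := by
    refine ⟨hfc, ?_⟩
    have h2 := pow_L_mem (mulLeft_isHom F.hD) (W.cl_mem hfc) (X.dim - 2 * 0 + 1)
    rw [W_hbd _ (by omega)] at h2
    rw [cl_divPow]
    exact (Submodule.mem_bot _).1 h2
  have h00 := bf_same F (Nat.zero_le _) hop hop (j := 0) (Nat.zero_le _)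
  rw [pow_zero, Module.End.one_apply, hcl] at h00
  refine ⟨_, ?_, h00⟩
  have h1 : pairing ops X D 0 X.V.fundCycle X.V.fundCycle =
      X.V.degCycle (divPow ops D X.dim X.V.fundCycle) := by
    have h2 := pairing_cast (W := W) F.hD (Nat.zero_le _) hfc hfc
    rw [hcl, one_mul, pow_zero, one_mul, mul_zero, Nat.sub_zero, ← hcl, ← cl_divPow,
      W.tr_cl (by have := divPow_mem (ops := ops) F.hD X.dim hfc; rwa [zero_add] at this)] at h2
    exact_mod_cast h2
  rw [h1]
  positivity

end Pool.Agent.V5helper84.SL
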