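import Pool.Agent.V5helper84.SL.Geo

/-!
# Pairs of operators on products
-/

open CategoryTheory AlgebraicGeometry

set_option autoImplicit false

universe u v

namespace Pool.Agent.V5helper84.SL

open Pool.Agent.H914 Pool.Agent.H914.VarClass Pool.Agent.H914.VarClass.Obj
  Pool.Agent.H914.WeilCohomology Pool.Agent.H281R3.HT Pool.Agent.W552 Pool.Agent.W539.Ker

variable {k : Type u} [Field k] {𝒱 : VarClass k} {ops : CycleOps 𝒱}
  {W : WeilCohomology.{u, v} ops} {X Y : 𝒱.Obj} {D : X.Cycles} {f : Module.End W.K (W.H X)}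
  {E : Y.Cycles} {g : Module.End W.K (W.H Y)}

lemma bil_kunneth {φ ψ : W.H (X.prod Y) →ₗ[W.K] W.H (X.prod Y) →ₗ[W.K] W.K}
    (h : ∀ a b a' b', φ (ext W a b) (ext W a' b') = ψ (ext W a b) (ext W a' b')) : φ = ψ := by
  apply ext_kunneth_lin
  intro a b
  apply ext_kunneth_lin
  intro a' b'
  exact h a b a' b'

lemma extOp_ext (φ : Module.End W.K (W.H X)) (ψ : Module.End W.K (W.H Y)) (a : W.H X)
    (b : W.H Y) : extOp W φ ψ (ext W a b) = ext W (φ a) (ψ b) := extOp_tmul φ ψ a b

lemma Ok.ext {u : Module.End W.K (W.H X)} {t : Module.End W.K (W.H Y)} (h : Ok W X u)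
    (h' : Ok W Y t) : Ok W (X.prod Y) (extOp W u t) := by
  refine ⟨h.1.ext h'.1, ?_⟩
  change _ * _ = _ * _
  have h1 := h.2.eq
  have h2 := h'.2.eq
  rw [wt_prod, extSum, extL_apply, extR_apply, mul_add, add_mul, extOp_mul, extOp_mul, extOp_mul,
    extOp_mul, h1, h2]
  simp

/-- Adjoint operators on the factors give adjoint operators on the product. -/
lemma adj_ext (F : Fr W X D f) (G : Fr W Y E g) {u u' : Module.End W.K (W.H X)}
    {t t' : Module.End W.K (W.H Y)} (h : ∀ x y, bf W X D f (u x) y = bf W X D f x (u' y))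
    (h' : ∀ x y, bf W Y E g (t x) y = bf W Y E g x (t' y)) (x y : W.H (X.prod Y)) :
    bf W (X.prod Y) (ops.pull (fst X Y) D + ops.pull (snd X Y) E) (extSum W f g)
        (extOp W u t x) y =
      bf W (X.prod Y) (ops.pull (fst X Y) D + ops.pull (snd X Y) E) (extSum W f g) x
        (extOp W u' t' y) := by
  set β := bf W (X.prod Y) (ops.pull (fst X Y) D + ops.pull (snd X Y) E) (extSum W f g) with hβ
  have h1 : β ∘ₗ extOp W u t = β.compl₂ (extOp W u' t') := by
    apply bil_kunneth
    intro a b a' b'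
    rw [LinearMap.comp_apply, LinearMap.compl₂_apply, extOp_ext, extOp_ext, hβ, F.bf_ext G,
      F.bf_ext G, h, h']
  have h2 := congrArg (fun φ => φ x y) h1
  exact h2

lemma anti_ext (F : Fr W X D f) (G : Fr W Y E g) {u u' : Module.End W.K (W.H X)}
    {t t' : Module.End W.K (W.H Y)} {c c' : W.K}
    (h : ∀ x y, bf W X D f (u x) (u y) = c * bf W X D f (u' x) y)
    (h' : ∀ x y, bf W Y E g (t x) (t y) = c' * bf W Y E g (t' x) y) (x y : W.H (X.prod Y)) :
    bf W (X.prod Y) (ops.pull (fst X Y) D + ops.pull (snd X Y) E) (extSum W f g)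
        (extOp W u t x) (extOp W u t y) =
      (c * c') * bf W (X.prod Y) (ops.pull (fst X Y) D + ops.pull (snd X Y) E) (extSum W f g)
        (extOp W u' t' x) y := by
  set β := bf W (X.prod Y) (ops.pull (fst X Y) D + ops.pull (snd X Y) E) (extSum W f g) with hβ
  have h1 : (β ∘ₗ extOp W u t).compl₂ (extOp W u t) = (c * c') • (β ∘ₗ extOp W u' t') := by
    apply bil_kunneth
    intro a b a' b'
    rw [LinearMap.compl₂_apply, LinearMap.comp_apply, LinearMap.smul_apply, LinearMap.smul_apply,
      LinearMap.comp_apply, extOp_ext, extOp_ext, extOp_ext, hβ, F.bf_ext G,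
      F.bf_ext G, h, h', smul_eq_mul]
    ring
  have h2 := congrArg (fun φ => φ x y) h1
  exact h2

lemma Pair.left (F : Fr W X D f) (G : Fr W Y E g) {P T : Module.End W.K (W.H X)} {κ : ℚ}
    (h : Pair W X D f P T κ) : Pair W (X.prod Y)
      (ops.pull (fst X Y) D + ops.pull (snd X Y) E) (extSum W f g)
      (extOp W P 1) (extOp W T 1) κ where
  okP := h.okP.ext Ok.one
  okT := h.okT.ext Ok.one
  idem := by rw [extOp_mul, h.idem, one_mul]
  PT := by rw [extOp_mul, h.PT, one_mul]
  self := adj_ext F G h.self (fun x y => rfl)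
  anti x y := by
    have := anti_ext F G (c' := 1) (t := 1) (t' := 1) h.anti
      (fun x y => by rw [one_mul]; rfl) x y
    rwa [mul_one] at this
  neg := h.neg

lemma Pair.right (F : Fr W X D f) (G : Fr W Y E g) {P T : Module.End W.K (W.H Y)} {κ : ℚ}
    (h : Pair W Y E g P T κ) : Pair W (X.prod Y)
      (ops.pull (fst X Y) D + ops.pull (snd X Y) E) (extSum W f g)
      (extOp W 1 P) (extOp W 1 T) κ where
  okP := Ok.one.ext h.okP
  okT := Ok.one.ext h.okT
  idem := by rw [extOp_mul, h.idem, one_mul]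
  PT := by rw [extOp_mul, h.PT, one_mul]
  self := adj_ext F G (fun x y => rfl) h.self
  anti x y := by
    have := anti_ext F G (c := 1) (u := 1) (u' := 1)
      (fun x y => by rw [one_mul]; rfl) h.anti x y
    rwa [one_mul] at this
  neg := h.neg

lemma finrank_range_extOp (u : Module.End W.K (W.H X)) (t : Module.End W.K (W.H Y)) :
    Module.finrank W.K (LinearMap.range (extOp W u t)) ≤
      Module.finrank W.K (LinearMap.range u) * Module.finrank W.K (LinearMap.range t) := by
  have h1 : extOp W u t = ((kappa W X Y).toLinearMap ∘ₗ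
      TensorProduct.map (LinearMap.range u).subtype (LinearMap.range t).subtype) ∘ₗ
      (TensorProduct.map u.rangeRestrict t.rangeRestrict ∘ₗ
        (kappa W X Y).symm.toLinearMap) := by
    apply ext_kunneth_lin
    intro a b
    rw [extOp_tmul]
    simp only [LinearMap.comp_apply, LinearEquiv.coe_coe]
    rw [← kappa_tmul a b, LinearEquiv.symm_apply_apply, TensorProduct.map_tmul,
      TensorProduct.map_tmul, kappa_tmul]
    rfl
  rw [h1]
  refine (Submodule.finrank_mono (LinearMap.range_comp_le_range _ _)).trans ?_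
  refine (LinearMap.finrank_range_le _).trans ?_
  rw [Module.finrank_tensorProduct]

/-- There is a list of commuting pairs whose projector has rank at most `r`. -/
def HasChain (W : WeilCohomology.{u, v} ops) (X : 𝒱.Obj) (D : X.Cycles)
    (f : Module.End W.K (W.H X)) (r : ℕ) : Prop :=
  ∃ l : LP W X, (∀ a ∈ l, Pair W X D f a.1 a.2.1 a.2.2) ∧ l.Pairwise Comm ∧
    Module.finrank W.K (LinearMap.range (QK l)) ≤ r

lemma HasChain.triv (W : WeilCohomology.{u, v} ops) (X : 𝒱.Obj) (D : X.Cycles)
    (f : Module.End W.K (W.H X)) : HasChain W X D f (Module.finrank W.K (W.H X)) :=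
  ⟨[], fun _ ha => absurd ha List.not_mem_nil, List.Pairwise.nil, Submodule.finrank_le _⟩

lemma QK_append (l l' : LP W X) : QK (l ++ l') = QK l * QK l' := by
  rw [QK, QK, QK, List.map_append, List.prod_append]

/-- The list of the operators on the first factor. -/
noncomputable def ll (Y : 𝒱.Obj) (l : LP W X) : LP W (X.prod Y) :=
  l.map (fun b => (extOp W b.1 1, extOp W b.2.1 1, b.2.2))

/-- The list of the operators on the second factor. -/
noncomputable def lr (X : 𝒱.Obj) (l : LP W Y) : LP W (X.prod Y) :=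
  l.map (fun b => (extOp W 1 b.1, extOp W 1 b.2.1, b.2.2))

lemma QK_lr (l : LP W Y) : QK (lr X l) = extOp W 1 (QK l) := by
  induction l with
  | nil => rw [QK_nil, extOp_one]; rfl
  | cons b l ih =>
    have h1 : (1 : Module.End W.K (W.H (X.prod Y))) - extOp W 1 b.1 = extOp W 1 (1 - b.1) := by
      rw [sub_eq_iff_eq_add, ← extOp_add_right, sub_add_cancel, extOp_one]
    rw [lr, List.map_cons, QK_cons, QK_cons]
    change _ * QK (lr X l) = _
    rw [ih, h1, extOp_mul, one_mul]

lemma QK_ll (l : LP W X) : QK (ll Y l) = extOp W (QK l) 1 := by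
  induction l with
  | nil => rw [QK_nil, extOp_one]; rfl
  | cons b l ih =>
    have h1 : (1 : Module.End W.K (W.H (X.prod Y))) - extOp W b.1 1 = extOp W (1 - b.1) 1 := by
      rw [sub_eq_iff_eq_add, ← extOp_add_left, sub_add_cancel, extOp_one]
    rw [ll, List.map_cons, QK_cons, QK_cons]
    change _ * QK (ll Y l) = _
    rw [ih, h1, extOp_mul, one_mul]

lemma HasChain.single {P T : Module.End W.K (W.H X)} {κ : ℚ} (h : Pair W X D f P T κ) {s : ℕ}
    (hs : Module.finrank W.K (LinearMap.range (1 - P)) ≤ s) : HasChain W X D f s := by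
  refine ⟨[(P, T, κ)], ?_, List.pairwise_singleton _ _, ?_⟩
  · intro a ha
    rw [List.mem_singleton] at ha
    rw [ha]
    exact h
  · rw [QK_cons, QK_nil, mul_one]
    exact hs

lemma HasChain.mono {r r' : ℕ} (h : HasChain W X D f r) (hr : r ≤ r') : HasChain W X D f r' := by
  obtain ⟨l, h1, h2, h3⟩ := h
  exact ⟨l, h1, h2, h3.trans hr⟩

/-- **Lists on the factors give a list on the product.** -/
theorem HasChain.prod (F : Fr W X D f) (G : Fr W Y E g) {s r : ℕ}
    (hX : HasChain W X D f s) (hY : HasChain W Y E g r) :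
    HasChain W (X.prod Y) (ops.pull (fst X Y) D + ops.pull (snd X Y) E) (extSum W f g)
      (s * r) := by
  obtain ⟨l, h1, h2, h3⟩ := hX
  obtain ⟨l', h1', h2', h3'⟩ := hY
  refine ⟨ll Y l ++ lr X l', ?_, ?_, ?_⟩
  · intro a ha
    rw [List.mem_append] at ha
    rcases ha with ha | ha
    · obtain ⟨b, hb, rfl⟩ := List.mem_map.1 ha
      exact (h1 b hb).left F G
    · obtain ⟨b, hb, rfl⟩ := List.mem_map.1 ha
      exact (h1' b hb).right F G
  · rw [List.pairwise_append]
    refine ⟨?_, ?_, ?_⟩
    · rw [ll, List.pairwise_map]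
      refine h2.imp ?_
      rintro a b ⟨c1, c2, c3⟩
      refine ⟨?_, ?_, ?_⟩
      · change _ * _ = _ * _
        rw [extOp_mul, extOp_mul, c1.eq]
      · change _ * _ = _ * _
        rw [extOp_mul, extOp_mul, c2.eq]
      · change _ * _ = _ * _
        rw [extOp_mul, extOp_mul, c3.eq]
    · rw [lr, List.pairwise_map]
      refine h2'.imp ?_
      rintro a b ⟨c1, c2, c3⟩
      refine ⟨?_, ?_, ?_⟩
      · change _ * _ = _ * _
        rw [extOp_mul, extOp_mul, c1.eq]
      · change _ * _ = _ * _
        rw [extOp_mul, extOp_mul, c2.eq]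
      · change _ * _ = _ * _
        rw [extOp_mul, extOp_mul, c3.eq]
    · intro a ha b hb
      obtain ⟨a', _, rfl⟩ := List.mem_map.1 ha
      obtain ⟨b', _, rfl⟩ := List.mem_map.1 hb
      refine ⟨?_, ?_, ?_⟩
      · change _ * _ = _ * _
        rw [extOp_mul, extOp_mul, one_mul, mul_one, one_mul, mul_one]
      · change _ * _ = _ * _
        rw [extOp_mul, extOp_mul, one_mul, mul_one, one_mul, mul_one]
      · change _ * _ = _ * _
        rw [extOp_mul, extOp_mul, one_mul, mul_one, one_mul, mul_one]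
  · rw [QK_append, QK_ll, QK_lr, extOp_mul, one_mul, mul_one]
    exact (finrank_range_extOp _ _).trans (Nat.mul_le_mul h3 h3')

/-- **The signature in weight `m`.** -/
theorem HasChain.wsum_le (hABS : S_ABS.{v}) (F : Fr W X D f) (S : Sy W X D f) {r : ℕ}
    (h : HasChain W X D f r) (m : ℤ) : |wsum X.dim (sig W X D) m| ≤ r := by
  obtain ⟨l, h1, h2, h3⟩ := h
  exact (SL.wsum_le hABS F S h1 h2 m).trans (by exact_mod_cast h3)

end Pool.Agent.V5helper84.SL
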