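import Pool.Agent.V5helper84.SL.Defs
import Pool.Agent.W539.Ker.Inertia
import Pool.Agent.H914R2.StdDefs

/-!
# Project SL (signature law): statements of the jobs

Row MP_ffcd14_ag (very famous), hand-in `SignatureLaw`. Every statement is independent.
-/

open CategoryTheory AlgebraicGeometry

set_option autoImplicit false

universe u v

namespace Pool.Agent.V5helper84.SL

open Pool.Agent.H914 Pool.Agent.H914.VarClass Pool.Agent.H914.VarClass.Obj
  Pool.Agent.H914.WeilCohomology Pool.Agent.H281R3.HT Pool.Agent.W539.Ker Pool.Agent.W534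

section Abs

variable {M : Type*} [AddCommGroup M] [Module ℚ M]

/-- The signature: positive squares minus negative squares. -/
noncomputable def sgn (B : M →ₗ[ℚ] M →ₗ[ℚ] ℚ) : ℤ :=
  (posIdx (fun x y => B x y) : ℤ) - posIdx (fun x y => -B x y)

/-- Orthogonal families of anisotropic vectors have at most `N` members. -/
def Bdd (B : M →ₗ[ℚ] M →ₗ[ℚ] ℚ) (N : ℕ) : Prop :=
  ∀ m (x : Fin m → M), (∀ i, B (x i) (x i) ≠ 0) → (∀ i j, i ≠ j → B (x i) (x j) = 0) → m ≤ N

/-- An idempotent self-adjoint operator `P` and an anti-similitude `T` of its image. -/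
structure Pr (B : M →ₗ[ℚ] M →ₗ[ℚ] ℚ) (P T : Module.End ℚ M) (κ : ℚ) : Prop where
  idem : P * P = P
  PT : P * T = T
  self : ∀ x y, B (P x) y = B x (P y)
  anti : ∀ x y, B (T x) (T y) = κ * B (P x) y
  neg : κ < 0

/-- The product of the complementary operators. -/
def Qp (l : List (Module.End ℚ M × Module.End ℚ M × ℚ)) : Module.End ℚ M :=
  (l.map (fun a => 1 - a.1)).prod

end Abs

/-- **Job ABS** (about 150 lines, Mathlib and `Pool.Agent.W539.Ker.Inertia` only).
Write `B_R x y = B (R x) y` (`B.comp R`). All forms which occur are symmetric and bounded by `N` (a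
family for `B_R`, `R` idempotent and self-adjoint, gives the family `R x_i` for `B`), so `exists_OM` and
`OM.signature_eq` apply: `sgn` is the sum of the signs of any `OM` family, and `|sgn B| ≤ N`.

Step (one pair): if `Pr B P T κ` then `sgn B = sgn (B ∘ (1 - P))`. Proof: let `y` be an `OM` family for
`B_P`, `x` one for `B_{1-P}`. Then `P y_i`, `(1 - P) x_j` together form an `OM` family for `B` (cross
terms vanish; if `u` is orthogonal to all of them, `B_P u u = 0` and `B_{1-P} u u = 0`, and
`B u u = B_P u u + B_{1-P} u u`). So `sgn B = sgn B_P + sgn B_{1-P}`. And `sgn B_P = 0`: the family `T y_i`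
satisfies `B_P (T y_i) (T y_j) = B (P (T y_i)) (T y_j) = κ B_P y_i y_j`, so by `OM.sylvester` (for `B_P` and,
by `OM.neg`, for `-B_P`) the number of positive `y_i` is equal to the number of negative ones.

Induction on `l` for the statement `sgn (B ∘ R) = sgn (B ∘ (R * Qp l))` for all idempotent self-adjoint
`R` which commute with the operators in `l`: the pair `(P, T)` is a pair for `B_R`
(`B (R T x) (T y) = B (T R x) (T y) = κ B (P R x) y = κ B_R (P x) y`), and `R (1 - P)` is again idempotent,
self-adjoint and commutes with the rest of the list. -/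
def S_ABS : Prop :=
  ∀ (M : Type v) (_ : AddCommGroup M) (_ : Module ℚ M) (B : M →ₗ[ℚ] M →ₗ[ℚ] ℚ),
    (∀ x y, B x y = B y x) → ∀ N, Bdd B N →
    ∀ l : List (Module.End ℚ M × Module.End ℚ M × ℚ), (∀ a ∈ l, Pr B a.1 a.2.1 a.2.2) →
      l.Pairwise (fun a b => Commute a.1 b.1 ∧ Commute a.2.1 b.1 ∧ Commute a.1 b.2.1) →
      ∀ N', Bdd (B.comp (Qp l)) N' → |sgn B| ≤ N'

/-- **Job RANK** (about 150 lines). For `c ≤ d / 2` the rank of the group of the cycles of codimension
`c` modulo numerical equivalence is the total number of squares in the codimensions `i ≤ c`.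
Proof: `exists_gd hD hHL hB` (file `W539/Ker/Ops.lean`) gives `f` and the frame `G.fr : Fr W X D f`. Copy the
construction in `exists_fam` (`W539/Ker/Fam.lean`) for `m = 2 c - d`: the family
`L ^ (c - i) x_{i,t}`, `i ≤ c`, where `x_{i,·}` is an `OM` family for `BP W hD i` (`exists_prim`), consists of
algebraic classes of codimension `c` and is a maximal orthogonal family for `bf` on them; its number of
elements is `∑ i ≤ c, (posSq i + negSq i)` (`OM.posIdx_eq`, `hasFamily_one`, `hasFamily_neg`). On the other
side `numRank` is the rank of the pairing between the codimensions `c` and `d - c`; since every algebraic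
class of codimension `d - c` is `L ^ (d - 2 c)` of one of codimension `c` (`Fr.lefschetzA`), and the star
operator maps the algebraic classes of codimension `c` onto those of codimension `d - c` (`Fr.w_alg`), it
is the rank of `bf` on the algebraic classes of codimension `c` (see also `numRank_eq` in
`V5helper86/GC`). -/
def S_RANK : Prop :=
  ∀ (k : Type u) (_ : Field k) (𝒱 : VarClass k) (ops : CycleOps 𝒱) (W : WeilCohomology.{u, v} ops)
    (X : 𝒱.Obj) (D : X.Cycles), X.IsCyc 1 D → HardLefschetz W X D → LefschetzB W X D →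
    ∀ c, 2 * c ≤ X.dim →
      numRank ops X c = ∑ i ∈ Finset.range (c + 1), (posSq W X D i + negSq W X D i)

/-- The polarized varieties `P` and `Q` are isomorphic. -/
def PIso {k : Type u} [Field k] {𝒱 : VarClass k} {ops : CycleOps 𝒱} (W : WeilCohomology.{u, v} ops)
    (P Q : Polarized 𝒱) : Prop :=
  P.X.dim = Q.X.dim ∧ ∃ e : P.X ≅ Q.X, W.map e.hom (W.cl Q.X Q.D) = W.cl P.X P.D ∧
    ∀ y, W.tr P.X (W.map e.hom y) = W.tr Q.X y

/-- **Job ISO** (about 200 lines). Isomorphic polarized varieties have the same families (copy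
`hasFamily_swap` in `W539/Ker/Final.lean`), and the powers of powers are powers; the isomorphisms are
`prodIso`, `assocIso`, `pwIso` in `Y163/Idx.lean` (with `pw_pw` in `V5helper86/GC/GrowPw.lean`); only the
classes of the divisors and the traces have to be compared, the latter with `W.kunneth_induction` and
`W.tr_prod` as in `tr_swap`. Hints: prove that `PIso` is reflexive, symmetric, transitive, compatible
with `Polarized.prod`, and `PIso ((P.prod Q).prod R) (P.prod (Q.prod R))`. -/
def S_ISO : Prop :=
  ∀ (k : Type u) (_ : Field k) (𝒱 : VarClass k) (ops : CycleOps 𝒱) (W : WeilCohomology.{u, v} ops),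
    (∀ P Q : Polarized 𝒱, P.X.IsCyc 1 P.D → Q.X.IsCyc 1 Q.D → PIso W P Q → ∀ n, 2 * n ≤ P.X.dim →
      ∀ (s : ℚ) (r : ℕ), HasFamily W P.X P.D n s r ↔ HasFamily W Q.X Q.D n s r) ∧
    (∀ P : Polarized 𝒱, P.X.IsCyc 1 P.D → ∀ m j : ℕ, ∃ N, N + 1 = (m + 1) * (j + 1) ∧
      PIso W (ppw ops (ppw ops P m) j) (ppw ops P N) ∧
      ∀ i, PIso W ((ppw ops (ppw ops P m) j).prod ops (ppw ops P i)) (ppw ops P (N + 1 + i))) ∧
    ∀ P : Polarized 𝒱, P.X.IsCyc 1 P.D → ∀ i j : ℕ,
      PIso W ((ppw ops P i).prod ops (ppw ops P j)) (ppw ops P (i + 1 + j))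

end Pool.Agent.V5helper84.SL
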