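import Pool.Agent.V5helper84.SL.Prod

/-!
# Two classes of opposite signs
-/

open CategoryTheory AlgebraicGeometry

set_option autoImplicit false

universe u v

namespace Pool.Agent.V5helper84.SL

open Pool.Agent.H914 Pool.Agent.H914.VarClass Pool.Agent.H914.VarClass.Obj
  Pool.Agent.H914.WeilCohomology Pool.Agent.H281R3.HT Pool.Agent.W552 Pool.Agent.W539.Ker

variable {k : Type u} [Field k] {𝒱 : VarClass k} {ops : CycleOps 𝒱}
  {W : WeilCohomology.{u, v} ops} {X Y : 𝒱.Obj} {D : X.Cycles} {f : Module.End W.K (W.H X)}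

/-- The operator `x ↦ bf x z • w`. -/
noncomputable def rk (W : WeilCohomology.{u, v} ops) (X : 𝒱.Obj) (D : X.Cycles)
    (f : Module.End W.K (W.H X)) (z w : W.H X) : Module.End W.K (W.H X) :=
  ((bf W X D f).flip z).smulRight w

lemma rk_apply (z w x : W.H X) : rk W X D f z w x = bf W X D f x z • w := rfl

lemma rk_mul (z w z' w' : W.H X) :
    rk W X D f z w * rk W X D f z' w' = bf W X D f w' z • rk W X D f z' w := by
  apply LinearMap.ext
  intro x
  rw [Module.End.mul_apply, rk_apply, rk_apply, LinearMap.smul_apply, rk_apply, map_smul,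
    LinearMap.smul_apply, smul_eq_mul, mul_comm, mul_smul]

lemma rk_aop (F : Fr W X D f) {z w : W.H X} (hz : AS W X z) (hw : AS W X w) :
    AOp W X X (rk W X D f z w) := by
  have hs := F.st_AS hz
  refine ⟨ext W (st W X D f z) w, hs.ext hw, ?_⟩
  apply LinearMap.ext
  intro x
  rw [corr_apply, rk_apply, bf_apply, H281R3.HT.ext]
  have h1 : W.map (fst X X) (st W X D f z) * W.map (snd X X) w * W.map (fst X X) x =
      W.map (fst X X) (x * st W X D f z) * W.map (snd X X) w := by
    rw [mul_assoc, (hw.map (snd X X)).comm, ← mul_assoc, (hs.map (fst X X)).comm, map_mul]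
  rw [h1, push_snd]

/-- The weight operator is self-adjoint. -/
lemma wt_self' (F : Fr W X D f) (a b : W.H X) :
    bf W X D f (wt (W.isInternal X) X.dim a) b = bf W X D f a (wt (W.isInternal X) X.dim b) := by
  refine gr_induction (W.isInternal X) (p := fun a => bf W X D f (wt (W.isInternal X) X.dim a) b =
    bf W X D f a (wt (W.isInternal X) X.dim b)) ?_ ?_ a
  swap
  · intro a a' ha ha'
    rw [map_add, map_add, LinearMap.add_apply, ha, ha', map_add, LinearMap.add_apply]
  intro i a ha
  refine gr_induction (W.isInternal X) (p := fun b => bf W X D f (wt (W.isInternal X) X.dim a) b =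
    bf W X D f a (wt (W.isInternal X) X.dim b)) ?_ ?_ b
  swap
  · intro b b' hb hb'
    rw [map_add, hb, hb', map_add, map_add]
  intro j b hb
  rw [Fr.wt_gr ha, Fr.wt_gr hb, map_smul, LinearMap.smul_apply, map_smul]
  by_cases hij : i = j
  · rw [hij]
  · rw [F.bf_deg ha hb hij, smul_zero, smul_zero]

lemma rk_wt (F : Fr W X D f) {m : ℤ} {z w : W.H X}
    (hz : wt (W.isInternal X) X.dim z = (m : W.K) • z)
    (hw : wt (W.isInternal X) X.dim w = (m : W.K) • w) :
    Commute (rk W X D f z w) (wt (W.isInternal X) X.dim) := by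
  change _ * _ = _ * _
  apply LinearMap.ext
  intro x
  rw [Module.End.mul_apply, Module.End.mul_apply, rk_apply, rk_apply, wt_self' F, hz, map_smul,
    map_smul, hw, smul_eq_mul, mul_comm, mul_smul]

/-- **Two algebraic classes of the same degree with opposite signs give a pair.** -/
theorem exists_pair (F : Fr W X D f) (S : Sy W X D f) {m : ℤ} {z w : W.H X} (hz : AS W X z) (hw : AS W X w)
    (hzm : wt (W.isInternal X) X.dim z = (m : W.K) • z)
    (hwm : wt (W.isInternal X) X.dim w = (m : W.K) • w) {c c' : ℚ} (hc : 0 < c) (hc' : c' < 0)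
    (hzz : bf W X D f z z = (c : W.K)) (hww : bf W X D f w w = (c' : W.K))
    (hzw : bf W X D f z w = 0) :
    ∃ (P T : Module.End W.K (W.H X)) (κ : ℚ), Pair W X D f P T κ ∧
      Module.finrank W.K (LinearMap.range (1 - P)) + 2 ≤ Module.finrank W.K (W.H X) := by
  have hs : ∀ (y : W.H X) {a : W.H X}, AS W X a → bf W X D f y a = bf W X D f a y := by
    intro y a ha
    rw [S y a, par_AS ha]
  have hwz : bf W X D f w z = 0 := by rw [hs w hz, hzw]
  have hc0 : (c : W.K) ≠ 0 := by exact_mod_cast hc.ne'
  have hc0' : (c' : W.K) ≠ 0 := by exact_mod_cast hc'.ne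
  set r11 := rk W X D f z z with h11
  set r22 := rk W X D f w w with h22
  set r12 := rk W X D f z w with h12
  set r21 := rk W X D f w z with h21
  set P : Module.End W.K (W.H X) := ((c⁻¹ : ℚ) : W.K) • r11 + ((c'⁻¹ : ℚ) : W.K) • r22 with hP
  set T : Module.End W.K (W.H X) := r12 + r21 with hT
  have m11 : r11 * r11 = (c : W.K) • r11 := by rw [h11, rk_mul, hzz]
  have m22 : r22 * r22 = (c' : W.K) • r22 := by rw [h22, rk_mul, hww]
  have m1122 : r11 * r22 = 0 := by rw [h11, h22, rk_mul, hwz, zero_smul]
  have m2211 : r22 * r11 = 0 := by rw [h11, h22, rk_mul, hzw, zero_smul]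
  have m1112 : r11 * r12 = 0 := by rw [h11, h12, rk_mul, hwz, zero_smul]
  have m1121 : r11 * r21 = (c : W.K) • r21 := by rw [h11, h21, rk_mul, hzz]
  have m2212 : r22 * r12 = (c' : W.K) • r12 := by rw [h22, h12, rk_mul, hww]
  have m2221 : r22 * r21 = 0 := by rw [h22, h21, rk_mul, hzw, zero_smul]
  have hci : ((c⁻¹ : ℚ) : W.K) * (c : W.K) = 1 := by
    rw [Rat.cast_inv, inv_mul_cancel₀ hc0]
  have hci' : ((c'⁻¹ : ℚ) : W.K) * (c' : W.K) = 1 := by
    rw [Rat.cast_inv, inv_mul_cancel₀ hc0']
  have hidem : P * P = P := by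
    rw [hP]
    simp only [mul_add, add_mul, smul_mul_assoc, mul_smul_comm, m11, m22, m1122, m2211,
      smul_zero, add_zero, zero_add, smul_smul]
    rw [hci, mul_one, hci', mul_one]
  have hPT : P * T = T := by
    rw [hP, hT]
    simp only [mul_add, add_mul, smul_mul_assoc, m1112, m1121, m2212, m2221,
      smul_zero, add_zero, zero_add, smul_smul]
    rw [hci, hci', one_smul, one_smul, add_comm]
  have hPa : ∀ x, P x = ((c⁻¹ : ℚ) : W.K) • bf W X D f x z • z +
      ((c'⁻¹ : ℚ) : W.K) • bf W X D f x w • w := fun x => rfl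
  have hTa : ∀ x, T x = bf W X D f x z • w + bf W X D f x w • z := fun x => rfl
  refine ⟨P, T, c * c', ⟨⟨?_, ?_⟩, ⟨?_, ?_⟩, hidem, hPT, ?_, ?_, ?_⟩, ?_⟩
  · exact ((rk_aop F hz hz).smul _).add ((rk_aop F hw hw).smul _)
  · exact ((rk_wt F hzm hzm).smul_left _).add_left ((rk_wt F hwm hwm).smul_left _)
  · exact (rk_aop F hz hw).add (rk_aop F hw hz)
  · exact (rk_wt F hzm hwm).add_left (rk_wt F hwm hzm)
  · intro x y
    rw [hPa, hPa]
    simp only [map_add, map_smul, LinearMap.add_apply, LinearMap.smul_apply, smul_eq_mul]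
    rw [hs y hz, hs y hw]
    ring
  · intro x y
    rw [hPa, hTa, hTa]
    simp only [map_add, map_smul, LinearMap.add_apply, LinearMap.smul_apply, smul_eq_mul, hzz,
      hww, hzw, hwz]
    rw [hs y hz, hs y hw]
    push_cast
    rw [Rat.cast_inv, Rat.cast_inv] at *
    field_simp
    ring
  · exact mul_neg_of_pos_of_neg hc hc'
  · have h1 : LinearMap.range (1 - P) ≤ LinearMap.ker P := by
      rintro _ ⟨x, rfl⟩
      rw [LinearMap.mem_ker, ← Module.End.mul_apply, mul_sub, mul_one, hidem, sub_self]
      rfl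
    have h2 := Submodule.finrank_mono h1
    have h3 := LinearMap.finrank_range_add_finrank_ker P
    have h4 : 2 ≤ Module.finrank W.K (LinearMap.range P) := by
      have hzP : P z = z := by
        rw [hPa, hzz, hzw, zero_smul, smul_zero, add_zero, smul_smul, hci, one_smul]
      have hwP : P w = w := by
        rw [hPa, hww, hwz, zero_smul, smul_zero, zero_add, smul_smul, hci', one_smul]
      have hli : LinearIndependent W.K
          ![(⟨z, ⟨z, hzP⟩⟩ : LinearMap.range P), ⟨w, ⟨w, hwP⟩⟩] := by
        rw [LinearIndependent.pair_iff]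
        intro s t hst
        have h5 : s • z + t • w = 0 := by
          have := congrArg Subtype.val hst
          simpa using this
        have h6 := congrArg (fun y => bf W X D f y z) h5
        have h7 := congrArg (fun y => bf W X D f y w) h5
        simp only [map_add, map_smul, LinearMap.add_apply, LinearMap.smul_apply, smul_eq_mul, hzz,
          hww, hzw, hwz, mul_zero, add_zero, zero_add, map_zero, LinearMap.zero_apply] at h6 h7
        exact ⟨(mul_eq_zero.1 h6).resolve_right hc0, (mul_eq_zero.1 h7).resolve_right hc0'⟩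
      have := hli.fintype_card_le_finrank
      simpa using this
    omega

end Pool.Agent.V5helper84.SL
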